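import Pool.Agent.Helper97.CG.W4b

/-!
# Row W4
-/

namespace Pool.Agent.Helper97.CG

open MvPolynomial Matrix Pool.Agent.Helper14.RG

universe u

set_option linter.unusedSectionVars false

section MReg

variable {k : Type u} [Field k] {X : Type*} {m n l : Type*}

/-- all entries lie in the algebra -/
def MReg (U : Subalgebra k (X → k)) (M : X → Matrix m n k) : Prop :=
  ∀ i j, (fun g => M g i j) ∈ U

variable {U : Subalgebra k (X → k)}

lemma MReg.mul [Fintype n] [Fintype l] [DecidableEq l] {M : X → Matrix m n k} {M' : X → Matrix n l k} (h : MReg U M)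
    (h' : MReg U M') : MReg U (fun g => M g * M' g) := mul_mem_alg U M M' h h'

lemma MReg.add {M M' : X → Matrix m n k} (h : MReg U M)
    (h' : MReg U M') : MReg U (fun g => M g + M' g) := fun i j => add_mem (h i j) (h' i j)

lemma MReg.sub {M M' : X → Matrix m n k} (h : MReg U M)
    (h' : MReg U M') : MReg U (fun g => M g - M' g) := fun i j => sub_mem (h i j) (h' i j)

lemma MReg.csmul {M : X → Matrix m n k} (c : k) (h : MReg U M) : MReg U (fun g => c • M g) :=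
  fun i j => U.smul_mem (h i j) c

lemma MReg.const (M : Matrix m n k) : MReg U (fun _ : X => M) :=
  fun i j => U.algebraMap_mem (M i j)

lemma MReg.tr {M : X → Matrix m n k} (h : MReg U M) : MReg U (fun g => (M g)ᵀ) :=
  fun i j => h j i

end MReg

section

variable {k : Type u} [Field k] {b r : ℕ} {ε : k} {d : Bool} {Jr : Matrix (Fin r) (Fin r) k}

lemma mreg_iso {n : Type} [Fintype n] [DecidableEq n] (J : Matrix n n k) :
    MReg (mAlg (isoHom J)) (fun g => isoHom J g) :=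
  fun i j => Algebra.subset_adjoin ⟨i, j, rfl⟩

section Reg

variable {X : Type*} {A : Subalgebra k (X → k)} {q : X → k}
  {y : X → Matrix (Fin b ⊕ (Fin b ⊕ (Fin r ⊕ Fin r))) (Fin b ⊕ (Fin b ⊕ (Fin r ⊕ Fin r))) k}

lemma reg_lC (hy : MReg A y) (h1 : ∀ g, q g ≠ 0 → (b11 (y g)).det ≠ 0) :
    MReg (RegU A q) (fun g => lC (y g)) := by
  have hU : MReg (RegU A q) y := fun i j => le_RegU A q (hy i j)
  have a1 : MReg (RegU A q) (fun g => (b11 (y g))⁻¹) :=
    nonsing_inv_mem_RegU _ (fun i j => hU _ _) h1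
  have a2 : MReg (RegU A q) (fun g => b31 (y g)) := fun i j => hU _ _
  exact a2.mul a1

lemma reg_lA (hy : MReg A y) (h1 : ∀ g, q g ≠ 0 → (b11 (y g)).det ≠ 0) :
    MReg (RegU A q) (fun g => lA (y g)) := by
  have hU : MReg (RegU A q) y := fun i j => le_RegU A q (hy i j)
  have a1 : MReg (RegU A q) (fun g => (b11 (y g))⁻¹) :=
    nonsing_inv_mem_RegU _ (fun i j => hU _ _) h1
  have a2 : MReg (RegU A q) (fun g => b21 (y g)) := fun i j => hU _ _
  exact a2.mul a1

lemma reg_lC' (hy : MReg A y) (h1 : ∀ g, q g ≠ 0 → (b12 (y g)).det ≠ 0) :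
    MReg (RegU A q) (fun g => lC' (y g)) := by
  have hU : MReg (RegU A q) y := fun i j => le_RegU A q (hy i j)
  have a1 : MReg (RegU A q) (fun g => (b12 (y g))⁻¹) :=
    nonsing_inv_mem_RegU _ (fun i j => hU _ _) h1
  have a2 : MReg (RegU A q) (fun g => b32 (y g)) := fun i j => hU _ _
  exact a2.mul a1

lemma reg_lA' (hy : MReg A y) (h1 : ∀ g, q g ≠ 0 → (b12 (y g)).det ≠ 0) :
    MReg (RegU A q) (fun g => lA' (y g)) := by
  have hU : MReg (RegU A q) y := fun i j => le_RegU A q (hy i j)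
  have a1 : MReg (RegU A q) (fun g => (b12 (y g))⁻¹) :=
    nonsing_inv_mem_RegU _ (fun i j => hU _ _) h1
  have a2 : MReg (RegU A q) (fun g => b22 (y g)) := fun i j => hU _ _
  exact a2.mul a1

lemma reg_lY (hy : MReg A y) (h1 : ∀ g, q g ≠ 0 → (b11 (y g)).det ≠ 0) :
    MReg (RegU A q) (fun g => lY (y g)) := by
  have hU : MReg (RegU A q) y := fun i j => le_RegU A q (hy i j)
  have a2 : MReg (RegU A q) (fun g => b33 (y g)) := fun i j => hU _ _
  have a3 : MReg (RegU A q) (fun g => b13 (y g)) := fun i j => hU _ _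
  exact a2.sub ((reg_lC hy h1).mul a3)

lemma reg_lY' (hy : MReg A y) (h1 : ∀ g, q g ≠ 0 → (b12 (y g)).det ≠ 0) :
    MReg (RegU A q) (fun g => lY' (y g)) := by
  have hU : MReg (RegU A q) y := fun i j => le_RegU A q (hy i j)
  have a2 : MReg (RegU A q) (fun g => b33 (y g)) := fun i j => hU _ _
  have a3 : MReg (RegU A q) (fun g => b13 (y g)) := fun i j => hU _ _
  exact a2.sub ((reg_lC' hy h1).mul a3)

lemma reg_lBeta (JN : Matrix (Fin r ⊕ Fin r) (Fin r ⊕ Fin r) k) (hy : MReg A y)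
    (h1 : ∀ g, q g ≠ 0 → (b11 (y g)).det ≠ 0) (h2 : ∀ g, q g ≠ 0 → (b12 (y g)).det ≠ 0)
    (p : BI b r d) : (fun g => lBeta d JN (y g) p) ∈ RegU A q := by
  have c1 := reg_lC hy h1
  have c2 := reg_lC' hy h2
  have a1 := reg_lA hy h1
  have a2 := reg_lA' hy h2
  have k1 : MReg (RegU A q) (fun g => lA (y g) + (2⁻¹ : k) • ((lC (y g))ᵀ * JN * lC (y g))) :=
    a1.add (MReg.csmul _ ((c1.tr.mul (MReg.const JN)).mul c1))
  have k2 : MReg (RegU A q) (fun g => lA' (y g) + (2⁻¹ : k) • ((lC' (y g))ᵀ * JN * lC' (y g))) :=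
    a2.add (MReg.csmul _ ((c2.tr.mul (MReg.const JN)).mul c2))
  rcases p with (p | p) | (p | p)
  · exact c1 _ _
  · exact k1 _ _
  · exact c2 _ _
  · exact k2 _ _

lemma reg_mb (H : HypData k b r ε d Jr) {β : X → BI b r d → k}
    (hβ : ∀ p, (fun g => β g p) ∈ RegU A q) : MReg (RegU A q) (fun g => H.mb (β g)) :=
  fun i j => eval_mem_RegU hβ (H.m i j)

end Reg

variable [IsAlgClosed k] [CharZero k]

/-- the facts of `ST_W4I` -/
structure Facts (ε : k) (d : Bool) (JN : Matrix (Fin r ⊕ Fin r) (Fin r ⊕ Fin r) k)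
    (y : Matrix (Fin b ⊕ (Fin b ⊕ (Fin r ⊕ Fin r))) (Fin b ⊕ (Fin b ⊕ (Fin r ⊕ Fin r))) k) :
    Prop where
  e1 : bC (lBeta d JN y) = lC y
  e2 : bC (lBeta d JN y ∘ Sum.swap) = lC' y
  e3 : bA ε JN (lBeta d JN y) = lA y
  e4 : bA ε JN (lBeta d JN y ∘ Sum.swap) = lA' y
  e5 : (bGam ε JN (lBeta d JN y)).det ≠ 0
  e6 : (lY y)ᵀ * JN * lY y = JN
  e7 : (lY' y)ᵀ * JN * lY' y = JN
  e8 : (bGam ε JN (lBeta d JN y)).det • lY y = bG ε JN (lBeta d JN y) * lY' y

lemma col_eq {x y y' : Matrix (Fin b ⊕ (Fin b ⊕ (Fin r ⊕ Fin r)))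
    (Fin b ⊕ (Fin b ⊕ (Fin r ⊕ Fin r))) k} (h1 : (b11 y).det ≠ 0) (h1' : (b11 y').det ≠ 0)
    (hC : lC y = lC y') (hA : lA y = lA y') (hy : y.det ≠ 0) (hx : y * x = y') :
    b11 x = (b11 y)⁻¹ * b11 y' ∧ b21 x = 0 ∧ b31 x = 0 := by
  set c := (b11 y)⁻¹ * b11 y' with hc
  have g1 : b11 y * c = b11 y' := by
    rw [hc, ← Matrix.mul_assoc, mul_nonsing_inv _ (isUnit_iff_ne_zero.2 h1), Matrix.one_mul]
  have g2 : b21 y * c = b21 y' := by
    rw [hc, ← Matrix.mul_assoc]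
    show lA y * b11 y' = b21 y'
    rw [hA, lA, Matrix.mul_assoc, nonsing_inv_mul _ (isUnit_iff_ne_zero.2 h1'), Matrix.mul_one]
  have g3 : b31 y * c = b31 y' := by
    rw [hc, ← Matrix.mul_assoc]
    show lC y * b11 y' = b31 y'
    rw [hC, lC, Matrix.mul_assoc, nonsing_inv_mul _ (isUnit_iff_ne_zero.2 h1'), Matrix.mul_one]
  have key : y * x.submatrix id Sum.inl =
      y * fromRows c (0 : Matrix (Fin b ⊕ (Fin r ⊕ Fin r)) (Fin b) k) := by
    have e1 : y * x.submatrix id Sum.inl = y'.submatrix id Sum.inl := by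
      rw [← hx]; rfl
    rw [e1]
    ext i j
    have e2 : (y * fromRows c (0 : Matrix (Fin b ⊕ (Fin r ⊕ Fin r)) (Fin b) k)) i j =
        ∑ l, y i (Sum.inl l) * c l j := by
      rw [Matrix.mul_apply, Fintype.sum_sum_type]
      simp
    rw [e2]
    rcases i with i | i | i
    · exact (congrFun (congrFun g1 i) j).symm
    · exact (congrFun (congrFun g2 i) j).symm
    · exact (congrFun (congrFun g3 i) j).symm
  have key2 : x.submatrix id Sum.inl =
      fromRows c (0 : Matrix (Fin b ⊕ (Fin r ⊕ Fin r)) (Fin b) k) := by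
    have e3 : y⁻¹ * y = 1 := nonsing_inv_mul _ (isUnit_iff_ne_zero.2 hy)
    have e4 := congrArg (fun M => y⁻¹ * M) key
    simp only [← Matrix.mul_assoc, e3, Matrix.one_mul] at e4
    exact e4
  refine ⟨?_, ?_, ?_⟩
  · ext i j; exact congrFun (congrFun key2 (Sum.inl i)) j
  · ext i j; exact congrFun (congrFun key2 (Sum.inr (Sum.inl i))) j
  · ext i j; exact congrFun (congrFun key2 (Sum.inr (Sum.inr i))) j

lemma col_eq' {x y y' : Matrix (Fin b ⊕ (Fin b ⊕ (Fin r ⊕ Fin r)))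
    (Fin b ⊕ (Fin b ⊕ (Fin r ⊕ Fin r))) k} (h1 : (b12 y).det ≠ 0) (h1' : (b12 y').det ≠ 0)
    (hC : lC' y = lC' y') (hA : lA' y = lA' y') (hy : y.det ≠ 0) (hx : y * x = y') :
    b12 x = 0 ∧ b22 x = (b12 y)⁻¹ * b12 y' ∧ b32 x = 0 := by
  set c := (b12 y)⁻¹ * b12 y' with hc
  have g1 : b12 y * c = b12 y' := by
    rw [hc, ← Matrix.mul_assoc, mul_nonsing_inv _ (isUnit_iff_ne_zero.2 h1), Matrix.one_mul]
  have g2 : b22 y * c = b22 y' := by
    rw [hc, ← Matrix.mul_assoc]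
    show lA' y * b12 y' = b22 y'
    rw [hA, lA', Matrix.mul_assoc, nonsing_inv_mul _ (isUnit_iff_ne_zero.2 h1'), Matrix.mul_one]
  have g3 : b32 y * c = b32 y' := by
    rw [hc, ← Matrix.mul_assoc]
    show lC' y * b12 y' = b32 y'
    rw [hC, lC', Matrix.mul_assoc, nonsing_inv_mul _ (isUnit_iff_ne_zero.2 h1'), Matrix.mul_one]
  have key : y * x.submatrix id (Sum.inr ∘ Sum.inl) =
      y * fromRows (0 : Matrix (Fin b) (Fin b) k)
        (fromRows c (0 : Matrix (Fin r ⊕ Fin r) (Fin b) k)) := by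
    have e1 : y * x.submatrix id (Sum.inr ∘ Sum.inl) =
        y'.submatrix id (Sum.inr ∘ Sum.inl) := by
      rw [← hx]; rfl
    rw [e1]
    ext i j
    have e2 : (y * fromRows (0 : Matrix (Fin b) (Fin b) k)
        (fromRows c (0 : Matrix (Fin r ⊕ Fin r) (Fin b) k))) i j =
        ∑ l, y i (Sum.inr (Sum.inl l)) * c l j := by
      rw [Matrix.mul_apply, Fintype.sum_sum_type, Fintype.sum_sum_type]
      simp
    rw [e2]
    rcases i with i | i | i
    · exact (congrFun (congrFun g1 i) j).symm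
    · exact (congrFun (congrFun g2 i) j).symm
    · exact (congrFun (congrFun g3 i) j).symm
  have key2 : x.submatrix id (Sum.inr ∘ Sum.inl) =
      fromRows (0 : Matrix (Fin b) (Fin b) k)
        (fromRows c (0 : Matrix (Fin r ⊕ Fin r) (Fin b) k)) := by
    have e3 : y⁻¹ * y = 1 := nonsing_inv_mul _ (isUnit_iff_ne_zero.2 hy)
    have e4 := congrArg (fun M => y⁻¹ * M) key
    simp only [← Matrix.mul_assoc, e3, Matrix.one_mul] at e4
    exact e4
  refine ⟨?_, ?_, ?_⟩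
  · ext i j; exact congrFun (congrFun key2 (Sum.inl i)) j
  · ext i j; exact congrFun (congrFun key2 (Sum.inr (Sum.inl i))) j
  · ext i j; exact congrFun (congrFun key2 (Sum.inr (Sum.inr i))) j

/-- an isometry which preserves the two isotropic block spaces is block diagonal -/
lemma blk_of_cols (hε : ε * ε = 1) {JN : Matrix (Fin r ⊕ Fin r) (Fin r ⊕ Fin r) k}
    {x : Matrix (Fin b ⊕ (Fin b ⊕ (Fin r ⊕ Fin r)))
    (Fin b ⊕ (Fin b ⊕ (Fin r ⊕ Fin r))) k} (hx : xᵀ * LJ (Fin b) ε JN * x = LJ (Fin b) ε JN)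
    (h1 : (b11 x).det ≠ 0) (h2 : (b22 x).det ≠ 0) (h21 : b21 x = 0) (h31 : b31 x = 0)
    (h12 : b12 x = 0) (h32 : b32 x = 0) :
    x = dg (b11 x) (b22 x) (b33 x) ∧ (b33 x)ᵀ * JN * b33 x = JN := by
  have h0 := hx
  rw [← mk3_eta x, h21, h31, h12, h32, mk3_transpose, LJ, mk3_mul, mk3_mul] at h0
  simp only [Matrix.zero_mul, Matrix.mul_zero, zero_add, add_zero, Matrix.smul_mul,
    Matrix.mul_smul, Matrix.mul_one, transpose_zero, smul_zero] at h0
  obtain ⟨⟨e11, e12, e13⟩, ⟨e21, e22, e23⟩, ⟨e31, e32, e33⟩⟩ := mk3_inj h0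
  have z23 : b23 x = 0 := by
    have h3 : ((b11 x)ᵀ)⁻¹ * (b11 x)ᵀ = 1 :=
      nonsing_inv_mul _ (isUnit_iff_ne_zero.2 (by rwa [det_transpose]))
    calc b23 x = ((b11 x)ᵀ)⁻¹ * ((b11 x)ᵀ * b23 x) := by
          rw [← Matrix.mul_assoc, h3, Matrix.one_mul]
      _ = 0 := by rw [e13, Matrix.mul_zero]
  have z13 : b13 x = 0 := by
    have h3 : ((b22 x)ᵀ)⁻¹ * (b22 x)ᵀ = 1 :=
      nonsing_inv_mul _ (isUnit_iff_ne_zero.2 (by rwa [det_transpose]))
    have h4 : ε • ((b22 x)ᵀ * b13 x) = 0 := e23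
    have h5 : (b22 x)ᵀ * b13 x = 0 := by
      have h6 := congrArg (fun M => ε • M) h4
      simp only [smul_smul, hε, one_smul, smul_zero] at h6
      exact h6
    calc b13 x = ((b22 x)ᵀ)⁻¹ * ((b22 x)ᵀ * b13 x) := by
          rw [← Matrix.mul_assoc, h3, Matrix.one_mul]
      _ = 0 := by rw [h5, Matrix.mul_zero]
  constructor
  · conv_lhs => rw [← mk3_eta x]
    rw [h21, h31, h12, h32, z23, z13, dg]
  · rw [z13, z23] at e33
    simpa using e33

/-- separation -/
lemma w4_sep (hH : ST_W4H k) (H : HypData k b r ε d Jr) (hε : ε * ε = 1) (hJ : Jr.det ≠ 0)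
    {I : k} {x y y' : Matrix (Fin b ⊕ (Fin b ⊕ (Fin r ⊕ Fin r)))
    (Fin b ⊕ (Fin b ⊕ (Fin r ⊕ Fin r))) k} (hy : H.Good y) (hy' : H.Good y')
    (fy : Facts ε d (JR Jr) y) (fy' : Facts ε d (JR Jr) y') (hyd : y.det ≠ 0)
    (hx : xᵀ * LJ (Fin b) ε (JR Jr) * x = LJ (Fin b) ε (JR Jr))
    (hxy : y * x = y') (ht : H.tt y = H.tt y') : sW4 b r I * x = x * sW4 b r I := by
  have hβ : lBeta d (JR Jr) y = lBeta d (JR Jr) y' := by
    funext p; exact congrFun ht (Sum.inl p)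
  have hX : toRows₂ (H.Z y) * (toRows₁ (H.Z y))⁻¹ = toRows₂ (H.Z y') * (toRows₁ (H.Z y'))⁻¹ := by
    ext i j; exact congrFun ht (Sum.inr (i, j))
  have hC : lC y = lC y' := by rw [← fy.e1, ← fy'.e1, hβ]
  have hC' : lC' y = lC' y' := by rw [← fy.e2, ← fy'.e2, hβ]
  have hA : lA y = lA y' := by rw [← fy.e3, ← fy'.e3, hβ]
  have hA' : lA' y = lA' y' := by rw [← fy.e4, ← fy'.e4, hβ]
  obtain ⟨c11, c21, c31⟩ := col_eq hy.a hy'.a hC hA hyd hxy
  obtain ⟨c12, c22, c32⟩ := col_eq' hy.b hy'.b hC' hA' hyd hxy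
  have d11 : (b11 x).det ≠ 0 := by
    rw [c11, det_mul, det_nonsing_inv, Ring.inverse_eq_inv']
    exact mul_ne_zero (inv_ne_zero hy.a) hy'.a
  have d22 : (b22 x).det ≠ 0 := by
    rw [c22, det_mul, det_nonsing_inv, Ring.inverse_eq_inv']
    exact mul_ne_zero (inv_ne_zero hy.b) hy'.b
  obtain ⟨hx1, hx2⟩ := blk_of_cols hε hx d11 d22 c21 c31 c12 c32
  obtain ⟨⟨g1, g2, g3, g4, g5, g6, g7, g8⟩, -⟩ := hH b r y (b11 x) (b22 x) (b33 x) d11 d22
  rw [← hx1, hxy] at g7
  -- the first eigenspace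
  have hZ' : H.Z y' = H.Z y * ((toRows₁ (H.Z y))⁻¹ * toRows₁ (H.Z y')) := by
    rw [← fromRows_toRows (H.Z y * ((toRows₁ (H.Z y))⁻¹ * toRows₁ (H.Z y'))), toRows₁_mul,
      toRows₂_mul]
    conv_lhs => rw [← fromRows_toRows (H.Z y')]
    congr 1
    · rw [← Matrix.mul_assoc, mul_nonsing_inv _ (isUnit_iff_ne_zero.2 hy.z), Matrix.one_mul]
    · rw [← Matrix.mul_assoc, hX, Matrix.mul_assoc,
        nonsing_inv_mul _ (isUnit_iff_ne_zero.2 hy'.z), Matrix.mul_one]
  set κ := (toRows₁ (H.Z y))⁻¹ * toRows₁ (H.Z y') with hκ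
  have hκd : κ.det ≠ 0 := by
    rw [hκ, det_mul, det_nonsing_inv, Ring.inverse_eq_inv']
    exact mul_ne_zero (inv_ne_zero hy.z) hy'.z
  have hm := (H.det_mb hε hy.c).1
  have e1 : (H.mb (lBeta d (JR Jr) y)).det • (lY y' * i1 r k) =
      (H.mb (lBeta d (JR Jr) y)).det • (lY y * i1 r k * κ) := by
    calc (H.mb (lBeta d (JR Jr) y)).det • (lY y' * i1 r k)
        = H.mb (lBeta d (JR Jr) y) * H.Z y' := by rw [hβ, H.mb_Z y']
      _ = H.mb (lBeta d (JR Jr) y) * H.Z y * κ := by rw [hZ', Matrix.mul_assoc]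
      _ = _ := by rw [H.mb_Z y, Matrix.smul_mul]
  have e2 : lY y' * i1 r k = lY y * i1 r k * κ := smul_right_injective _ hm e1
  have hYd : (lY y).det ≠ 0 := isom_det_ne (J := JR Jr) (by
    intro h0
    have h1 := congrArg Matrix.det (JR_mul_inv hJ)
    rw [det_mul, h0, zero_mul, det_one] at h1
    exact zero_ne_one h1) fy.e6
  have e3 : b33 x * i1 r k = i1 r k * κ := by
    have e4 : lY y * (b33 x * i1 r k) = lY y * (i1 r k * κ) := by
      rw [← Matrix.mul_assoc, ← g7, e2, Matrix.mul_assoc]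
    have e5 : (lY y)⁻¹ * lY y = 1 := nonsing_inv_mul _ (isUnit_iff_ne_zero.2 hYd)
    calc b33 x * i1 r k = (lY y)⁻¹ * (lY y * (b33 x * i1 r k)) := by
          rw [← Matrix.mul_assoc, e5, Matrix.one_mul]
      _ = i1 r k * κ := by rw [e4, ← Matrix.mul_assoc, e5, Matrix.one_mul]
  have e6 := sg_comm_of hJ hx2 hκd e3
  rw [hx1]
  exact sW4_comm_dg e6

end

/-- evaluation of a pulled back matrix -/
lemma eval_rename_map {k : Type u} [Field k] {σ τ : Type*} {m n : Type*} (f : σ → τ) (x : τ → k)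
    (M : Matrix m n (MvPolynomial σ k)) :
    (M.map (rename f)).map (MvPolynomial.eval x) = M.map (MvPolynomial.eval (x ∘ f)) := by
  ext i j
  simp [eval_rename]

section Dom

variable {k : Type u} [Field k] [IsAlgClosed k] [CharZero k] {b r : ℕ} {ε : k} {d : Bool}
  {Jr : Matrix (Fin r) (Fin r) k}

/-- all coordinates -/
abbrev NN (b r : ℕ) (d : Bool) : Type := BI b r d ⊕ (Fin r × Fin r)

/-- `[1; X]` -/
def gr {R : Type*} [CommRing R] (x : NN b r d → R) : Matrix (Fin r ⊕ Fin r) (Fin r) R :=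
  fromRows 1 (Matrix.of fun i j => x (Sum.inr (i, j)))

namespace HypData

variable (H : HypData k b r ε d Jr)

/-- the Gram determinant of the graph -/
noncomputable def SP : MvPolynomial (NN b r d) k :=
  ((H.m.map (rename (Sum.inl : BI b r d → NN b r d)) *
      gr (X : NN b r d → MvPolynomial (NN b r d) k))ᵀ *
    (JR Jr).map (C : k → MvPolynomial (NN b r d) k) *
    (H.m.map (rename (Sum.inl : BI b r d → NN b r d)) *
      gr (X : NN b r d → MvPolynomial (NN b r d) k))).det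

lemma eval_SP (x : NN b r d → k) : MvPolynomial.eval x H.SP =
    ((H.mb (x ∘ Sum.inl) * gr x)ᵀ * JR Jr * (H.mb (x ∘ Sum.inl) * gr x)).det := by
  rw [SP, RingHom.map_det, RingHom.mapMatrix_apply, Matrix.map_mul, Matrix.map_mul,
    transpose_map, Matrix.map_mul, eval_rename_map]
  have e1 : ((gr X : Matrix (Fin r ⊕ Fin r) (Fin r) (MvPolynomial (NN b r d) k))).map
      (MvPolynomial.eval x) = gr x := by
    ext i j
    rcases i with i | i
    · by_cases hij : i = j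
      · subst hij; simp [gr]
      · simp [gr, hij]
    · simp [gr]
  have e2 : ((JR Jr).map (C : k → MvPolynomial (NN b r d) k)).map (MvPolynomial.eval x) =
      JR Jr := by
    ext i j
    simp
  have e3 : (C : k →+* MvPolynomial (NN b r d) k) = (C : k →+* MvPolynomial (NN b r d) k) := rfl
  rw [e1, e2]
  rfl

lemma dom (hJr : IsForm ε Jr) (hsg : IsSg ε d)
    (hG : (bGam ε (JR Jr) (X : BI b r d → MvPolynomial (BI b r d) k)).det ≠ 0)
    (hWX : ST_W4X k) (P : MvPolynomial (NN b r d) k) (hP : P ≠ 0) :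
    ∃ x : NN b r d → k, MvPolynomial.eval x P ≠ 0 ∧ MvPolynomial.eval (x ∘ Sum.inl) H.D ≠ 0 ∧
      MvPolynomial.eval ((x ∘ Sum.inl) ∘ Sum.swap) H.D ≠ 0 ∧
      (bGam ε (JR Jr) (x ∘ Sum.inl : BI b r d → k)).det ≠ 0 ∧
      ((H.mb (x ∘ Sum.inl) * gr x)ᵀ * JR Jr * (H.mb (x ∘ Sum.inl) * gr x)).det ≠ 0 := by
  have hS : H.SP ≠ 0 := by
    intro h0
    obtain ⟨β0, hβ0⟩ : ∃ β0 : BI b r d → k, MvPolynomial.eval β0 H.D ≠ 0 := by
      by_contra hcon
      push Not at hcon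
      exact H.hD (MvPolynomial.funext fun x => by rw [hcon x, map_zero])
    have hmb := (H.det_mb hsg.sq hβ0).1
    have hform : IsForm ε ((H.mb β0)ᵀ * JR Jr * H.mb β0) := by
      refine ⟨hJr.eps, ?_, ?_⟩
      · rw [transpose_mul, transpose_mul, transpose_transpose, (JR_isForm hJr).symm,
          Matrix.smul_mul, Matrix.mul_smul, Matrix.mul_assoc]
      · rw [det_mul, det_mul, det_transpose]
        exact mul_ne_zero (mul_ne_zero hmb (JR_isForm hJr).det_ne) hmb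
    obtain ⟨X0, hX0⟩ := hWX r ε Jr _ hJr hform
    have hX1 : ((fromRows (1 : Matrix (Fin r) (Fin r) k) X0 :
        Matrix (Fin r ⊕ Fin r) (Fin r) k)ᵀ * ((H.mb β0)ᵀ * JR Jr * H.mb β0) *
        (fromRows (1 : Matrix (Fin r) (Fin r) k) X0 : Matrix (Fin r ⊕ Fin r) (Fin r) k)).det ≠ 0 :=
      hX0
    apply hX1
    have h1 := congrArg (MvPolynomial.eval (Sum.elim β0 (fun p : Fin r × Fin r => X0 p.1 p.2))) h0
    rw [H.eval_SP, map_zero] at h1
    rw [← h1]
    have e1 : (Sum.elim β0 (fun p : Fin r × Fin r => X0 p.1 p.2)) ∘ Sum.inl = β0 := rfl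
    have e2 : (gr (Sum.elim β0 (fun p : Fin r × Fin r => X0 p.1 p.2) : NN b r d → k)) =
        fromRows 1 X0 := rfl
    rw [e1, e2, transpose_mul]
    simp only [Matrix.mul_assoc]
  set Q := P * (rename Sum.inl H.D) * (rename Sum.inl (rename Sum.swap H.D)) *
    (rename Sum.inl (bGam ε (JR Jr) (X : BI b r d → MvPolynomial (BI b r d) k)).det) * H.SP with hQ
  have hr1 : Function.Injective (rename (Sum.inl : BI b r d → NN b r d) :
      MvPolynomial (BI b r d) k → MvPolynomial (NN b r d) k) :=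
    rename_injective _ Sum.inl_injective
  have hr2 : Function.Injective (rename (Sum.swap : BI b r d → BI b r d) :
      MvPolynomial (BI b r d) k → MvPolynomial (BI b r d) k) :=
    rename_injective _ (Function.LeftInverse.injective (g := Sum.swap) Sum.swap_swap)
  have hQ0 : Q ≠ 0 := by
    refine mul_ne_zero (mul_ne_zero (mul_ne_zero (mul_ne_zero hP ?_) ?_) ?_) hS
    · exact (map_ne_zero_iff _ hr1).2 H.hD
    · exact (map_ne_zero_iff _ hr1).2 ((map_ne_zero_iff _ hr2).2 H.hD)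
    · exact (map_ne_zero_iff _ hr1).2 hG
  obtain ⟨x, hx⟩ : ∃ x : NN b r d → k, MvPolynomial.eval x Q ≠ 0 := by
    by_contra hcon
    push Not at hcon
    exact hQ0 (MvPolynomial.funext fun x => by rw [hcon x, map_zero])
  refine ⟨x, ?_⟩
  rw [hQ, map_mul, map_mul, map_mul, map_mul, eval_rename, eval_rename, eval_rename, eval_rename,
    H.eval_SP] at hx
  have hd : MvPolynomial.eval (x ∘ Sum.inl)
      (bGam ε (JR Jr) (X : BI b r d → MvPolynomial (BI b r d) k)).det =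
      (bGam ε (JR Jr) (x ∘ Sum.inl : BI b r d → k)).det := by
    rw [RingHom.map_det, RingHom.mapMatrix_apply, bGam_eval]
  rw [hd] at hx
  exact ⟨left_ne_zero_of_mul (left_ne_zero_of_mul (left_ne_zero_of_mul (left_ne_zero_of_mul hx))),
    right_ne_zero_of_mul (left_ne_zero_of_mul (left_ne_zero_of_mul (left_ne_zero_of_mul hx))),
    right_ne_zero_of_mul (left_ne_zero_of_mul (left_ne_zero_of_mul hx)),
    right_ne_zero_of_mul (left_ne_zero_of_mul hx), right_ne_zero_of_mul hx⟩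

end HypData

end Dom

section Main

variable {k : Type u} [Field k] [IsAlgClosed k] [CharZero k]

lemma sum_single {N : Type*} [Fintype N] (a : N) (f g : N → k) (h1 : g a = f a)
    (h2 : ∀ l, l ≠ a → g l = 0) : f a = ∑ l, g l := by
  rw [Finset.sum_eq_single a (fun l _ hl => h2 l hl)
    (fun h => absurd (Finset.mem_univ _) h), h1]

/-- Row W4. -/
theorem st_W4 (hHYP : ST_HYP k) (hWI : ST_W4I k) (hWH : ST_W4H k) (hWD : ST_W4D k)
    (hWY : ST_W4Y k) (hWX : ST_W4X k) (hGNZ : ST_GNZ k) : ST_W4 k := by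
  intro b r ε d Jr I hsg hJr hI hrb
  obtain ⟨m, D, hD, hm⟩ := hHYP b r ε d Jr hsg hJr hrb
  let H : HypData k b r ε d Jr := ⟨m, D, hD, hm⟩
  have hG := hGNZ b r ε d Jr hsg hJr hrb
  have hJN := JR_isForm hJr
  have hε := hsg.sq
  show HasLChart (mAlg (isoHom (LJ (Fin b) ε (JR Jr))))
    (cm (isoHom (LJ (Fin b) ε (JR Jr))) (sW4 b r I))
    (cmm (isoHom (LJ (Fin b) ε (JR Jr))) (sW4 b r I))
  set J := LJ (Fin b) ε (JR Jr) with hJ
  set A := mAlg (isoHom J) with hA
  have hρ : MReg A (fun g => isoHom J g) := mreg_iso J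
  have hiso : ∀ g : IsoG J, (isoHom J g)ᵀ * J * isoHom J g = J := fun g => g.2
  have hdet : ∀ g : IsoG J, (isoHom J g).det = 1 := fun g => g.1.2
  have hdet0 : ∀ g : IsoG J, (isoHom J g).det ≠ 0 := fun g => by
    rw [hdet]; exact one_ne_zero
  have facts : ∀ g : IsoG J, (b11 (isoHom J g)).det ≠ 0 → (b12 (isoHom J g)).det ≠ 0 →
      Facts ε d (JR Jr) (isoHom J g) := by
    intro g h1 h2
    obtain ⟨e1, e2, e3, e4, e5, e6, e7, e8, -⟩ := hWI b r ε d (JR Jr) hsg hJN _ (hiso g) h1 h2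
    exact ⟨e1, e2, e3, e4, e5, e6, e7, e8⟩
  -- the open set
  have hqa : (fun g => (b11 (isoHom J g)).det) ∈ A := det_mem_alg A _ (fun i j => hρ _ _)
  have hqb : (fun g => (b12 (isoHom J g)).det) ∈ A := det_mem_alg A _ (fun i j => hρ _ _)
  set q : IsoG J → k := fun g => (b11 (isoHom J g)).det * (b12 (isoHom J g)).det with hq
  have hqA : q ∈ A := mul_mem hqa hqb
  have h11 : ∀ g, q g ≠ 0 → (b11 (isoHom J g)).det ≠ 0 := fun g hg => left_ne_zero_of_mul hg
  have h12 : ∀ g, q g ≠ 0 → (b12 (isoHom J g)).det ≠ 0 := fun g hg => right_ne_zero_of_mul hg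
  have rβ : ∀ p, (fun g => lBeta d (JR Jr) (isoHom J g) p) ∈ RegU A q :=
    reg_lBeta (JR Jr) hρ h11 h12
  have rβ' : ∀ p, (fun g => (lBeta d (JR Jr) (isoHom J g) ∘ Sum.swap) p) ∈ RegU A q :=
    fun p => rβ p.swap
  have rm : MReg (RegU A q) (fun g => H.mb (lBeta d (JR Jr) (isoHom J g))) := reg_mb H rβ
  have rm' : MReg (RegU A q) (fun g => H.mb (lBeta d (JR Jr) (isoHom J g) ∘ Sum.swap)) :=
    reg_mb H rβ'
  have rZ : MReg (RegU A q) (fun g => H.Z (isoHom J g)) := by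
    have a1 : MReg (RegU A q)
        (fun g => (H.mb (lBeta d (JR Jr) (isoHom J g))).adjugate) := adjugate_mem_alg _ _ rm
    exact a1.mul ((reg_lY hρ h11).mul (MReg.const (i1 r k)))
  have rZm : MReg (RegU A q) (fun g => H.Zm (isoHom J g)) := by
    have a1 : MReg (RegU A q)
        (fun g => (H.mb (lBeta d (JR Jr) (isoHom J g) ∘ Sum.swap)).adjugate) :=
      adjugate_mem_alg _ _ rm'
    exact a1.mul ((reg_lY' hρ h12).mul (MReg.const (i2 r k)))
  set F : IsoG J → k := fun g => MvPolynomial.eval (lBeta d (JR Jr) (isoHom J g)) H.D *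
    MvPolynomial.eval (lBeta d (JR Jr) (isoHom J g) ∘ Sum.swap) H.D *
    (toRows₁ (H.Z (isoHom J g))).det * (toRows₁ (H.Zm (isoHom J g))).det with hF
  have hFU : F ∈ RegU A q := by
    have a1 := eval_mem_RegU rβ H.D
    have a2 := eval_mem_RegU rβ' H.D
    have a3 : (fun g => (toRows₁ (H.Z (isoHom J g))).det) ∈ RegU A q :=
      det_mem_alg _ _ (fun i j => rZ _ _)
    have a4 : (fun g => (toRows₁ (H.Zm (isoHom J g))).det) ∈ RegU A q :=
      det_mem_alg _ _ (fun i j => rZm _ _)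
    exact mul_mem (mul_mem (mul_mem a1 a2) a3) a4
  obtain ⟨q1, hq1A, hq1⟩ := exists_refine hqA hFU
  have hgood : ∀ g, q1 g ≠ 0 ↔ H.Good (isoHom J g) := by
    intro g
    rw [hq1]
    constructor
    · rintro ⟨a, b⟩
      exact ⟨left_ne_zero_of_mul a, right_ne_zero_of_mul a,
        left_ne_zero_of_mul (left_ne_zero_of_mul (left_ne_zero_of_mul b)),
        right_ne_zero_of_mul (left_ne_zero_of_mul (left_ne_zero_of_mul b)),
        right_ne_zero_of_mul (left_ne_zero_of_mul b), right_ne_zero_of_mul b⟩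
    · rintro ⟨a, b, c, c', z, z'⟩
      exact ⟨mul_ne_zero a b, mul_ne_zero (mul_ne_zero (mul_ne_zero c c') z) z'⟩
  have hmono : RegU A q ≤ RegU A q1 := RegU_mono fun g hg => ((hq1 g).1 hg).1
  have treg : ∀ j, (fun g => H.tt (isoHom J g) j) ∈ RegU A q1 := by
    intro j
    rcases j with j | j
    · exact hmono (rβ j)
    · have a1 : MReg (RegU A q1) (fun g => (toRows₁ (H.Z (isoHom J g)))⁻¹) :=
        nonsing_inv_mem_RegU _ (fun i j => hmono (rZ _ _)) (fun g hg => ((hgood g).1 hg).z)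
      have a2 : MReg (RegU A q1) (fun g => toRows₂ (H.Z (isoHom J g))) :=
        fun i j => hmono (rZ _ _)
      exact (a2.mul a1) j.1 j.2
  have hrel : ∀ g, H.Good (isoHom J g) →
      (H.Z (isoHom J g))ᵀ * HE r ε * H.Zm (isoHom J g) = 0 := by
    intro g hg
    have f := facts g hg.a hg.b
    exact H.Z_rel f.e6 f.e8 hg.c
  have hdom : ∀ P : MvPolynomial (NN b r d) k, P ≠ 0 →
      ∃ g, q1 g ≠ 0 ∧ MvPolynomial.eval (H.tt (isoHom J g)) P ≠ 0 := by
    intro P hP
    obtain ⟨x, x1, x2, x3, x4, x5⟩ := H.dom hJr hsg hG hWX P hP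
    set β : BI b r d → k := x ∘ Sum.inl with hβ
    obtain ⟨Y, g, y1, y2, y3, y4⟩ := hWY r ε Jr hJr (H.mb β * gr x) x5
    obtain ⟨z1, z2, z3, z4, z5, z6⟩ := hWD b r ε d (JR Jr) hsg hJN β Y x4 y1 _ rfl
    set y := nLow (JR Jr) (bA ε (JR Jr) β) (bC β) *
      nUp ε (JR Jr) (bGam ε (JR Jr) β)⁻¹ (-(bDel β * (bGam ε (JR Jr) β)⁻¹)) * dg 1 1 Y with hy
    let γ : IsoG J := ⟨⟨y, by rw [z2, y2]⟩, z1⟩
    have hγ : isoHom J γ = y := rfl
    have hmbd := (H.det_mb hε x2).1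
    have hmbd' := (H.det_mb hε x2).2
    have f : Facts ε d (JR Jr) y := facts γ z3 z4
    have hZ : H.Z y = (H.mb β).det • (gr x * g) := by
      rw [HypData.Z, z5, z6]
      have : Y * i1 r k = H.mb β * gr x * g := y4
      rw [this, ← Matrix.mul_assoc, ← Matrix.mul_assoc, adjugate_mul, Matrix.smul_mul,
        Matrix.one_mul, Matrix.smul_mul]
    have hgr1 : toRows₁ (gr x) = 1 := toRows₁_fromRows _ _
    have hgr2 : toRows₂ (gr x) = Matrix.of fun i j => x (Sum.inr (i, j)) := toRows₂_fromRows _ _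
    have hZ' : H.Z y = gr x * ((H.mb β).det • g) := by rw [hZ, Matrix.mul_smul]
    have hgd : ((H.mb β).det • g).det ≠ 0 := by
      rw [det_smul]; exact mul_ne_zero (pow_ne_zero _ hmbd) y3
    have hZa : (toRows₁ (H.Z y)).det ≠ 0 := by
      rw [hZ', toRows₁_mul, hgr1, Matrix.one_mul]; exact hgd
    have hr0 : (H.Z y)ᵀ * HE r ε * H.Zm y = 0 := H.Z_rel f.e6 f.e8 (by rw [z5]; exact x2)
    have hZm : (toRows₁ (H.Zm y)).det ≠ 0 := by
      refine half_inv hr0 hZa (H.Zm_inj hJN.det_ne f.e7 ?_)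
      rw [z5]; exact hmbd'
    have hg0 : H.Good y := ⟨z3, z4, by rw [z5]; exact x2, by rw [z5]; exact x3, hZa, hZm⟩
    refine ⟨γ, (hgood γ).2 hg0, ?_⟩
    have htt : H.tt y = x := by
      funext p
      rcases p with p | p
      · show lBeta d (JR Jr) y p = x (Sum.inl p)
        rw [z5]; rfl
      · show (toRows₂ (H.Z y) * (toRows₁ (H.Z y))⁻¹) p.1 p.2 = x (Sum.inr p)
        rw [hZ', half_mul _ hgd, hgr1, hgr2, inv_one, Matrix.mul_one]
        rfl
    rw [hγ, htt]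
    exact x1
  classical
  refine ⟨NN b r d, inferInstance, Classical.decEq _, ⟨{
    hH := cm_le_cmm _ _
    q0 := q1
    q0_mem := hq1A
    q0_ne := ?_
    t := fun g => H.tt (isoHom J g)
    treg := treg
    sep := ?_
    dom := hdom
    inv := ?_
    equiv := ?_ }⟩⟩
  · intro h0
    obtain ⟨g, hg, -⟩ := hdom 1 one_ne_zero
    exact hg (by rw [h0]; rfl)
  · intro g g' hg hg' ht
    refine ⟨g⁻¹ * g', ?_, by rw [mul_inv_cancel_left]⟩
    have hy := (hgood g).1 hg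
    have hy' := (hgood g').1 hg'
    refine w4_sep hWH H hε hJr.det_ne hy hy' (facts g hy.a hy.b) (facts g' hy'.a hy'.b)
      (hdet0 g) (hiso _) ?_ ht
    rw [← map_mul, mul_inv_cancel_left]
  · intro h hh g hg j
    have := (H.good_comm hWH hI (hdet0 h) hh ((hgood g).1 hg)).2
    show H.tt (isoHom J (g * h)) j = _
    rw [map_mul, this]
  · rintro h (hh | hh)
    · refine ⟨1, fun g hg => ?_⟩
      obtain ⟨u1, u2⟩ := H.good_comm hWH hI (hdet0 h) hh ((hgood g).1 hg)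
      refine ⟨(hgood _).2 (by rw [map_mul]; exact u1), fun j => ?_⟩
      show H.tt (isoHom J (g * h)) j = _
      rw [map_mul, u2]
      refine sum_single j _ _ ?_ (fun l hl => ?_)
      · rw [Matrix.one_apply_eq, one_mul]
      · rw [Matrix.one_apply_ne hl.symm, zero_mul]
    · refine ⟨Matrix.of fun j l => Sum.elim (fun p => if l = Sum.inl p.swap then (1 : k) else 0)
        (fun p => if l = Sum.inr (p.2, p.1) then -ε else 0) j, fun g hg => ?_⟩
      have hy := (hgood g).1 hg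
      obtain ⟨u1, u2⟩ := H.good_anticomm hWH hI (hdet0 h) hh hy (hrel g hy)
      refine ⟨(hgood _).2 (by rw [map_mul]; exact u1), fun j => ?_⟩
      show H.tt (isoHom J (g * h)) j = _
      rw [map_mul, u2]
      rcases j with j | j
      · refine sum_single (Sum.inl j.swap) (H.tt (isoHom J g)) _ ?_ (fun l hl => ?_)
        · show (if Sum.inl j.swap = Sum.inl j.swap then (1 : k) else 0) * _ = _
          rw [if_pos rfl, one_mul]
        · show (if l = Sum.inl j.swap then (1 : k) else 0) * _ = _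
          rw [if_neg hl, zero_mul]
      · refine sum_single (Sum.inr (j.2, j.1)) (fun l => -(ε * H.tt (isoHom J g) l)) _ ?_
          (fun l hl => ?_)
        · show (if Sum.inr (j.2, j.1) = Sum.inr (j.2, j.1) then -ε else 0) * _ = _
          rw [if_pos rfl, neg_mul]
        · show (if l = Sum.inr (j.2, j.1) then -ε else 0) * _ = _
          rw [if_neg hl, zero_mul]

end Main

end Pool.Agent.Helper97.CG
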