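import Pool.Agent.Helper14.RG.LC.Asm

/-!
# Matrix groups (MP_005e41, classical types)

The charts are `LChart`, `HasLChart` of `Helper14/RG/LC`.
-/

namespace Pool.Agent.Helper97.CG

open MvPolynomial Matrix Pool.Agent.Helper14.RG

section Groups

variable {k : Type*} [Field k] {n m : Type} [Fintype n] [DecidableEq n] [Fintype m] [DecidableEq m]

/-- The regular functions of a matrix group: generated by the entries. -/
def mAlg {G : Type*} [Group G] (ρ : G →* Matrix n n k) : Subalgebra k (G → k) :=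
  Algebra.adjoin k {f | ∃ i j, f = fun g => ρ g i j}

/-- The elements commuting with `s`. -/
def cm {G : Type*} [Group G] (ρ : G →* Matrix n n k) (s : Matrix n n k) : Subgroup G where
  carrier := {g | s * ρ g = ρ g * s}
  mul_mem' := by
    intro a b ha hb
    show s * ρ (a * b) = ρ (a * b) * s
    have ha : s * ρ a = ρ a * s := ha
    have hb : s * ρ b = ρ b * s := hb
    rw [map_mul, ← mul_assoc, ha, mul_assoc, hb, mul_assoc]
  one_mem' := by
    show s * ρ 1 = ρ 1 * s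
    rw [map_one, mul_one, one_mul]
  inv_mem' := by
    intro a ha
    have ha : s * ρ a = ρ a * s := ha
    show s * ρ a⁻¹ = ρ a⁻¹ * s
    have h1 : ρ a⁻¹ * ρ a = 1 := by rw [← map_mul, inv_mul_cancel, map_one]
    have h2 : ρ a * ρ a⁻¹ = 1 := by rw [← map_mul, mul_inv_cancel, map_one]
    calc s * ρ a⁻¹ = ρ a⁻¹ * (ρ a * s) * ρ a⁻¹ := by rw [← mul_assoc, h1, one_mul]
      _ = ρ a⁻¹ * s * (ρ a * ρ a⁻¹) := by rw [← ha]; simp only [mul_assoc]
      _ = ρ a⁻¹ * s := by rw [h2, mul_one]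

/-- The elements which commute or anticommute with `s`. -/
def cmm {G : Type*} [Group G] (ρ : G →* Matrix n n k) (s : Matrix n n k) : Subgroup G where
  carrier := {g | s * ρ g = ρ g * s ∨ s * ρ g = -(ρ g * s)}
  mul_mem' := by
    intro a b ha hb
    show s * ρ (a * b) = ρ (a * b) * s ∨ s * ρ (a * b) = -(ρ (a * b) * s)
    rw [map_mul]
    rcases ha with ha | ha <;> rcases hb with hb | hb
    · left; rw [← mul_assoc, ha, mul_assoc, hb, mul_assoc]
    · right; rw [← mul_assoc, ha, mul_assoc, hb, mul_neg, mul_assoc]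
    · right; rw [← mul_assoc, ha, neg_mul, mul_assoc, hb, mul_assoc]
    · left; rw [← mul_assoc, ha, neg_mul, mul_assoc, hb, mul_neg, neg_neg, mul_assoc]
  one_mem' := by
    left
    show s * ρ 1 = ρ 1 * s
    rw [map_one, mul_one, one_mul]
  inv_mem' := by
    intro a ha
    have h1 : ρ a⁻¹ * ρ a = 1 := by rw [← map_mul, inv_mul_cancel, map_one]
    have h2 : ρ a * ρ a⁻¹ = 1 := by rw [← map_mul, mul_inv_cancel, map_one]
    have h3 : s * ρ a⁻¹ = ρ a⁻¹ * (ρ a * s) * ρ a⁻¹ := by rw [← mul_assoc, h1, one_mul]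
    rcases ha with ha | ha
    · left
      show s * ρ a⁻¹ = ρ a⁻¹ * s
      rw [h3, ← ha, ← mul_assoc, mul_assoc _ (ρ a), h2, mul_one]
    · right
      show s * ρ a⁻¹ = -(ρ a⁻¹ * s)
      have h4 : ρ a * s = -(s * ρ a) := by rw [ha, neg_neg]
      rw [h3, h4, mul_neg, neg_mul, ← mul_assoc, mul_assoc _ (ρ a), h2, mul_one]

lemma cm_le_cmm {G : Type*} [Group G] (ρ : G →* Matrix n n k) (s : Matrix n n k) :
    cm ρ s ≤ cmm ρ s := fun _ hg => Or.inl hg

/-- Chart for the centraliser of `s`, equivariant for the elements which commute with `s` up to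
sign. -/
def HC {G : Type*} [Group G] (ρ : G →* Matrix n n k) (s : Matrix n n k) : Prop :=
  HasLChart (mAlg ρ) (cm ρ s) (cmm ρ s)

/-- The isometry group `{x ∈ SL_n : xᵀ J x = J}`. -/
def IsoG (J : Matrix n n k) : Subgroup (Matrix.SpecialLinearGroup n k) where
  carrier := {x | (x : Matrix n n k)ᵀ * J * (x : Matrix n n k) = J}
  mul_mem' := by
    intro x y hx hy
    have hx : (x : Matrix n n k)ᵀ * J * (x : Matrix n n k) = J := hx
    have hy : (y : Matrix n n k)ᵀ * J * (y : Matrix n n k) = J := hy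
    show ((x * y : Matrix.SpecialLinearGroup n k) : Matrix n n k)ᵀ * J *
      ((x * y : Matrix.SpecialLinearGroup n k) : Matrix n n k) = J
    rw [Matrix.SpecialLinearGroup.coe_mul, transpose_mul]
    calc (y : Matrix n n k)ᵀ * (x : Matrix n n k)ᵀ * J * ((x : Matrix n n k) * (y : Matrix n n k))
        = (y : Matrix n n k)ᵀ * ((x : Matrix n n k)ᵀ * J * (x : Matrix n n k)) *
          (y : Matrix n n k) := by simp only [Matrix.mul_assoc]
      _ = J := by rw [hx, hy]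
  one_mem' := by
    show ((1 : Matrix.SpecialLinearGroup n k) : Matrix n n k)ᵀ * J *
      ((1 : Matrix.SpecialLinearGroup n k) : Matrix n n k) = J
    rw [Matrix.SpecialLinearGroup.coe_one, transpose_one, Matrix.one_mul, Matrix.mul_one]
  inv_mem' := by
    intro x hx
    have hx : (x : Matrix n n k)ᵀ * J * (x : Matrix n n k) = J := hx
    show ((x⁻¹ : Matrix.SpecialLinearGroup n k) : Matrix n n k)ᵀ * J *
      ((x⁻¹ : Matrix.SpecialLinearGroup n k) : Matrix n n k) = J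
    have h1 : (x : Matrix n n k) * ((x⁻¹ : Matrix.SpecialLinearGroup n k) : Matrix n n k) = 1 := by
      rw [← Matrix.SpecialLinearGroup.coe_mul, mul_inv_cancel, Matrix.SpecialLinearGroup.coe_one]
    have h2 : ((x⁻¹ : Matrix.SpecialLinearGroup n k) : Matrix n n k)ᵀ * (x : Matrix n n k)ᵀ = 1 := by
      rw [← transpose_mul, h1, transpose_one]
    calc ((x⁻¹ : Matrix.SpecialLinearGroup n k) : Matrix n n k)ᵀ * J *
          ((x⁻¹ : Matrix.SpecialLinearGroup n k) : Matrix n n k)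
        = ((x⁻¹ : Matrix.SpecialLinearGroup n k) : Matrix n n k)ᵀ *
          ((x : Matrix n n k)ᵀ * J * (x : Matrix n n k)) *
          ((x⁻¹ : Matrix.SpecialLinearGroup n k) : Matrix n n k) := by rw [hx]
      _ = (((x⁻¹ : Matrix.SpecialLinearGroup n k) : Matrix n n k)ᵀ * (x : Matrix n n k)ᵀ) * J *
          ((x : Matrix n n k) * ((x⁻¹ : Matrix.SpecialLinearGroup n k) : Matrix n n k)) := by
            simp only [Matrix.mul_assoc]
      _ = J := by rw [h1, h2, Matrix.one_mul, Matrix.mul_one]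

/-- The inclusion of the isometry group in the matrices. -/
def isoHom (J : Matrix n n k) : IsoG J →* Matrix n n k where
  toFun x := ((x : Matrix.SpecialLinearGroup n k) : Matrix n n k)
  map_one' := rfl
  map_mul' _ _ := rfl

/-- The inclusion of `GL_n` in the matrices. -/
def glHom (n : Type) [Fintype n] [DecidableEq n] (k : Type*) [Field k] :
    GL n k →* Matrix n n k := Units.coeHom _

/-- The product of two matrix groups. -/
def pHom {G₁ G₂ : Type*} [Group G₁] [Group G₂] (ρ₁ : G₁ →* Matrix n n k)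
    (ρ₂ : G₂ →* Matrix m m k) : G₁ × G₂ →* Matrix (n ⊕ m) (n ⊕ m) k where
  toFun g := fromBlocks (ρ₁ g.1) 0 0 (ρ₂ g.2)
  map_one' := by
    show fromBlocks (ρ₁ 1) 0 0 (ρ₂ 1) = 1
    rw [map_one, map_one, fromBlocks_one]
  map_mul' g h := by
    show fromBlocks (ρ₁ (g.1 * h.1)) 0 0 (ρ₂ (g.2 * h.2)) = _
    rw [map_mul, map_mul, fromBlocks_multiply]
    simp

/-- `J` is a non-degenerate form, symmetric (`ε = 1`) or alternating (`ε = -1`). -/
structure IsForm (ε : k) (J : Matrix n n k) : Prop where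
  eps : ε = 1 ∨ ε = -1
  symm : Jᵀ = ε • J
  det_ne : J.det ≠ 0

end Groups

section Blocks

variable {R : Type*} {e w : Type*}

/-- A matrix with three by three blocks of sizes `e`, `e`, `w`. -/
def mk3 (a11 a12 : Matrix e e R) (a13 : Matrix e w R) (a21 a22 : Matrix e e R) (a23 : Matrix e w R)
    (a31 a32 : Matrix w e R) (a33 : Matrix w w R) : Matrix (e ⊕ (e ⊕ w)) (e ⊕ (e ⊕ w)) R :=
  Matrix.of fun i j => match i, j with
    | Sum.inl i, Sum.inl j => a11 i j
    | Sum.inl i, Sum.inr (Sum.inl j) => a12 i j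
    | Sum.inl i, Sum.inr (Sum.inr j) => a13 i j
    | Sum.inr (Sum.inl i), Sum.inl j => a21 i j
    | Sum.inr (Sum.inl i), Sum.inr (Sum.inl j) => a22 i j
    | Sum.inr (Sum.inl i), Sum.inr (Sum.inr j) => a23 i j
    | Sum.inr (Sum.inr i), Sum.inl j => a31 i j
    | Sum.inr (Sum.inr i), Sum.inr (Sum.inl j) => a32 i j
    | Sum.inr (Sum.inr i), Sum.inr (Sum.inr j) => a33 i j

/-- the nine blocks -/
def b11 (x : Matrix (e ⊕ (e ⊕ w)) (e ⊕ (e ⊕ w)) R) : Matrix e e R :=
  Matrix.of fun i j => x (Sum.inl i) (Sum.inl j)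
/-- block -/
def b12 (x : Matrix (e ⊕ (e ⊕ w)) (e ⊕ (e ⊕ w)) R) : Matrix e e R :=
  Matrix.of fun i j => x (Sum.inl i) (Sum.inr (Sum.inl j))
/-- block -/
def b13 (x : Matrix (e ⊕ (e ⊕ w)) (e ⊕ (e ⊕ w)) R) : Matrix e w R :=
  Matrix.of fun i j => x (Sum.inl i) (Sum.inr (Sum.inr j))
/-- block -/
def b21 (x : Matrix (e ⊕ (e ⊕ w)) (e ⊕ (e ⊕ w)) R) : Matrix e e R :=
  Matrix.of fun i j => x (Sum.inr (Sum.inl i)) (Sum.inl j)
/-- block -/
def b22 (x : Matrix (e ⊕ (e ⊕ w)) (e ⊕ (e ⊕ w)) R) : Matrix e e R :=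
  Matrix.of fun i j => x (Sum.inr (Sum.inl i)) (Sum.inr (Sum.inl j))
/-- block -/
def b23 (x : Matrix (e ⊕ (e ⊕ w)) (e ⊕ (e ⊕ w)) R) : Matrix e w R :=
  Matrix.of fun i j => x (Sum.inr (Sum.inl i)) (Sum.inr (Sum.inr j))
/-- block -/
def b31 (x : Matrix (e ⊕ (e ⊕ w)) (e ⊕ (e ⊕ w)) R) : Matrix w e R :=
  Matrix.of fun i j => x (Sum.inr (Sum.inr i)) (Sum.inl j)
/-- block -/
def b32 (x : Matrix (e ⊕ (e ⊕ w)) (e ⊕ (e ⊕ w)) R) : Matrix w e R :=
  Matrix.of fun i j => x (Sum.inr (Sum.inr i)) (Sum.inr (Sum.inl j))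
/-- block -/
def b33 (x : Matrix (e ⊕ (e ⊕ w)) (e ⊕ (e ⊕ w)) R) : Matrix w w R :=
  Matrix.of fun i j => x (Sum.inr (Sum.inr i)) (Sum.inr (Sum.inr j))

variable [CommRing R] [Fintype e] [DecidableEq e] [Fintype w] [DecidableEq w]

/-- The standard form `[[0, 1, 0], [ε, 0, 0], [0, 0, Jw]]`. -/
def LJ (e : Type*) [Fintype e] [DecidableEq e] (ε : R) (Jw : Matrix w w R) :
    Matrix (e ⊕ (e ⊕ w)) (e ⊕ (e ⊕ w)) R :=
  mk3 0 1 0 (ε • (1 : Matrix e e R)) 0 0 0 0 Jw

/-- lower unipotent isometry with first column `[1; A; C]` -/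
def nLow (Jw : Matrix w w R) (A : Matrix e e R) (C : Matrix w e R) :
    Matrix (e ⊕ (e ⊕ w)) (e ⊕ (e ⊕ w)) R :=
  mk3 1 0 0 A 1 (-(Cᵀ * Jw)) C 0 1

/-- upper unipotent isometry with second column `[B; 1; D]` -/
def nUp (ε : R) (Jw : Matrix w w R) (B : Matrix e e R) (D : Matrix w e R) :
    Matrix (e ⊕ (e ⊕ w)) (e ⊕ (e ⊕ w)) R :=
  mk3 1 B (-(ε • (Dᵀ * Jw))) 0 1 0 0 D 1

/-- block diagonal -/
def dg (a a' : Matrix e e R) (Y : Matrix w w R) : Matrix (e ⊕ (e ⊕ w)) (e ⊕ (e ⊕ w)) R :=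
  mk3 a 0 0 0 a' 0 0 0 Y

end Blocks

end Pool.Agent.Helper97.CG
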