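import Pool.Agent.Helper97.CG.Base

/-!
# Statements of the rows (table cg_mods). Proofs: docstrings here and /team-store/cg_blueprint.md
-/

namespace Pool.Agent.Helper97.CG

open MvPolynomial Matrix Pool.Agent.Helper14.RG

universe u

/-! ## Definitions -/

/-- index set of the free entries of a matrix `K` with `Kᵀ = -ε K` -/
def KI (e : ℕ) (d : Bool) : Type :=
  {p : Fin e × Fin e // p.1 < p.2 ∨ (d = true ∧ p.1 = p.2)}

instance (e : ℕ) (d : Bool) : Fintype (KI e d) := by unfold KI; infer_instance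
instance (e : ℕ) (d : Bool) : DecidableEq (KI e d) := by unfold KI; infer_instance

/-- `d = true` iff `ε = -1` -/
def IsSg {R : Type*} [CommRing R] (ε : R) (d : Bool) : Prop :=
  (d = true ∧ ε = -1) ∨ (d = false ∧ ε = 1)

/-- the matrix `K` with `Kᵀ = -ε K` and given free entries -/
def skw {R : Type*} [CommRing R] {e : ℕ} {d : Bool} (ε : R) (z : KI e d → R) :
    Matrix (Fin e) (Fin e) R :=
  Matrix.of fun i j => if h : i < j ∨ (d = true ∧ i = j) then z ⟨(i, j), h⟩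
    else if h : j < i then -(ε * z ⟨(j, i), Or.inl h⟩) else 0

/-- index of `C` -/
abbrev CI (b r : ℕ) : Type := (Fin r ⊕ Fin r) × Fin b
/-- index of `(C, K)` -/
abbrev HI (b r : ℕ) (d : Bool) : Type := CI b r ⊕ KI b d
/-- index of the base coordinates `(C, K, C', K')` -/
abbrev BI (b r : ℕ) (d : Bool) : Type := HI b r d ⊕ HI b r d

section Base

variable {k : Type u} [Field k] {R : Type*} [CommRing R] [Algebra k R] {b r : ℕ} {d : Bool}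

/-- the matrix `C`; `C'` is `bC (β ∘ Sum.swap)` -/
def bC (β : BI b r d → R) : Matrix (Fin r ⊕ Fin r) (Fin b) R :=
  Matrix.of fun i j => β (Sum.inl (Sum.inl (i, j)))

/-- `A = K - Cᵀ J_N C / 2`; `A'` is `bA ε JN (β ∘ Sum.swap)` -/
def bA (ε : k) (JN : Matrix (Fin r ⊕ Fin r) (Fin r ⊕ Fin r) k) (β : BI b r d → R) :
    Matrix (Fin b) (Fin b) R :=
  skw (algebraMap k R ε) (fun p => β (Sum.inl (Sum.inr p))) -
    (2⁻¹ : k) • ((bC β)ᵀ * JN.map (algebraMap k R) * bC β)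

/-- `Γ = A' + ε Aᵀ + Cᵀ J_N C'`, the pairing of `[1; A; C]` and `[1; A'; C']` -/
def bGam (ε : k) (JN : Matrix (Fin r ⊕ Fin r) (Fin r ⊕ Fin r) k) (β : BI b r d → R) :
    Matrix (Fin b) (Fin b) R :=
  bA ε JN (β ∘ Sum.swap) + algebraMap k R ε • (bA ε JN β)ᵀ +
    (bC β)ᵀ * JN.map (algebraMap k R) * bC (β ∘ Sum.swap)

/-- `Δ = C - C'` -/
def bDel (β : BI b r d → R) : Matrix (Fin r ⊕ Fin r) (Fin b) R := bC β - bC (β ∘ Sum.swap)

/-- `det Γ • g` with `g = 1 + Δ Γ⁻¹ Δᵀ J_N` -/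
def bG (ε : k) (JN : Matrix (Fin r ⊕ Fin r) (Fin r ⊕ Fin r) k) (β : BI b r d → R) :
    Matrix (Fin r ⊕ Fin r) (Fin r ⊕ Fin r) R :=
  (bGam ε JN β).det • (1 : Matrix (Fin r ⊕ Fin r) (Fin r ⊕ Fin r) R) +
    bDel β * (bGam ε JN β).adjugate * (bDel β)ᵀ * JN.map (algebraMap k R)

/-- `[[0, 1], [ε, 0]]` -/
def HE (r : ℕ) (ε : R) : Matrix (Fin r ⊕ Fin r) (Fin r ⊕ Fin r) R :=
  fromBlocks 0 1 (ε • (1 : Matrix (Fin r) (Fin r) R)) 0

/-- `[[0, Jr], [Jr, 0]]` -/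
def JR (Jr : Matrix (Fin r) (Fin r) k) : Matrix (Fin r ⊕ Fin r) (Fin r ⊕ Fin r) k :=
  fromBlocks 0 Jr Jr 0

end Base

section Point

variable {k : Type u} [Field k] {e : ℕ} {w : Type} [Fintype w] [DecidableEq w]

/-- `C` of a matrix -/
noncomputable def lC (y : Matrix (Fin e ⊕ (Fin e ⊕ w)) (Fin e ⊕ (Fin e ⊕ w)) k) : Matrix w (Fin e) k :=
  b31 y * (b11 y)⁻¹
/-- `A` of a matrix -/
noncomputable def lA (y : Matrix (Fin e ⊕ (Fin e ⊕ w)) (Fin e ⊕ (Fin e ⊕ w)) k) :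
    Matrix (Fin e) (Fin e) k :=
  b21 y * (b11 y)⁻¹
/-- `Y` of a matrix -/
noncomputable def lY (y : Matrix (Fin e ⊕ (Fin e ⊕ w)) (Fin e ⊕ (Fin e ⊕ w)) k) : Matrix w w k :=
  b33 y - lC y * b13 y
/-- `C'` of a matrix -/
noncomputable def lC' (y : Matrix (Fin e ⊕ (Fin e ⊕ w)) (Fin e ⊕ (Fin e ⊕ w)) k) : Matrix w (Fin e) k :=
  b32 y * (b12 y)⁻¹
/-- `A'` of a matrix -/
noncomputable def lA' (y : Matrix (Fin e ⊕ (Fin e ⊕ w)) (Fin e ⊕ (Fin e ⊕ w)) k) :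
    Matrix (Fin e) (Fin e) k :=
  b22 y * (b12 y)⁻¹
/-- `Y'` of a matrix -/
noncomputable def lY' (y : Matrix (Fin e ⊕ (Fin e ⊕ w)) (Fin e ⊕ (Fin e ⊕ w)) k) : Matrix w w k :=
  b33 y - lC' y * b13 y

/-- the base coordinates of a matrix -/
noncomputable def lBeta {b r : ℕ} (d : Bool) (JN : Matrix (Fin r ⊕ Fin r) (Fin r ⊕ Fin r) k)
    (y : Matrix (Fin b ⊕ (Fin b ⊕ (Fin r ⊕ Fin r))) (Fin b ⊕ (Fin b ⊕ (Fin r ⊕ Fin r))) k) :
    BI b r d → k :=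
  Sum.elim
    (Sum.elim (fun p => lC y p.1 p.2)
      (fun p => (lA y + (2⁻¹ : k) • ((lC y)ᵀ * JN * lC y)) p.1.1 p.1.2))
    (Sum.elim (fun p => lC' y p.1 p.2)
      (fun p => (lA' y + (2⁻¹ : k) • ((lC' y)ᵀ * JN * lC' y)) p.1.1 p.1.2))

end Point

/-! ## Rows -/

variable (k : Type u) [Field k] [IsAlgClosed k] [CharZero k]

/-- Change of basis. The isomorphism `x ↦ v x u` of `IsoG J` with `IsoG (uᵀ J u)`
(`Matrix.det_conj_of_mul_eq_one` for the determinant); it maps `cm s`, `cmm s` onto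
`cm (v s u)`, `cmm (v s u)` and the algebras to each other. -/
def ST_TRN : Prop := ∀ (n m : Type) [Fintype n] [DecidableEq n] [Fintype m] [DecidableEq m]
  (J s : Matrix n n k) (u : Matrix n m k) (v : Matrix m n k), u * v = 1 → v * u = 1 →
  HC (isoHom (uᵀ * J * u)) (v * s * u) → HC (isoHom J) s

/-- Product of two charts; `cmm` of the product is contained in the product of the two `cmm`;
`dom` by `exists_special`, `eval_special`. -/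
def ST_PRD : Prop := ∀ (G₁ G₂ : Type u) [Group G₁] [Group G₂] (n m : Type) [Fintype n]
  [DecidableEq n] [Fintype m] [DecidableEq m] (ρ₁ : G₁ →* Matrix n n k) (ρ₂ : G₂ →* Matrix m m k)
  (s₁ : Matrix n n k) (s₂ : Matrix m m k), HC ρ₁ s₁ → HC ρ₂ s₂ →
  HC (pHom ρ₁ ρ₂) (fromBlocks s₁ 0 0 s₂)

/-- Factorisation of an isometry `x` of `LJ` with invertible first block: with `C = lC x`,
`A = lA x`, `Y = lY x`, `B = b12 x * (b11 x)ᵀ`, `D = (b32 x - C * b12 x) * (b11 x)ᵀ`. -/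
def ST_LEVF : Prop := ∀ (e : ℕ) (w : Type) [Fintype w] [DecidableEq w] (ε : k) (Jw : Matrix w w k),
  IsForm ε Jw → ∀ x : Matrix (Fin e ⊕ (Fin e ⊕ w)) (Fin e ⊕ (Fin e ⊕ w)) k,
  xᵀ * LJ (Fin e) ε Jw * x = LJ (Fin e) ε Jw → (b11 x).det ≠ 0 →
  (lA x + ε • (lA x)ᵀ + (lC x)ᵀ * Jw * lC x = 0) ∧ (lY x)ᵀ * Jw * lY x = Jw ∧
  (b12 x * (b11 x)ᵀ + ε • (b12 x * (b11 x)ᵀ)ᵀ +
    ε • (((b32 x - lC x * b12 x) * (b11 x)ᵀ)ᵀ * Jw * ((b32 x - lC x * b12 x) * (b11 x)ᵀ)) = 0) ∧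
  x = nLow Jw (lA x) (lC x) *
    nUp ε Jw (b12 x * (b11 x)ᵀ) ((b32 x - lC x * b12 x) * (b11 x)ᵀ) *
    dg (b11 x) ((b11 x)ᵀ)⁻¹ (lY x) ∧ x.det = (lY x).det

/-- The converse construction. -/
def ST_LEVC : Prop := ∀ (e : ℕ) (w : Type) [Fintype w] [DecidableEq w] (ε : k) (Jw : Matrix w w k),
  IsForm ε Jw → ∀ (A B α : Matrix (Fin e) (Fin e) k) (C D : Matrix w (Fin e) k)
    (Y : Matrix w w k), A + ε • Aᵀ + Cᵀ * Jw * C = 0 → B + ε • Bᵀ + ε • (Dᵀ * Jw * D) = 0 →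
  α.det ≠ 0 → Yᵀ * Jw * Y = Jw →
  ∀ x, x = nLow Jw A C * nUp ε Jw B D * dg α (αᵀ)⁻¹ Y →
  xᵀ * LJ (Fin e) ε Jw * x = LJ (Fin e) ε Jw ∧ x.det = Y.det ∧ b11 x = α ∧ lA x = A ∧
    lC x = C ∧ lY x = Y ∧ b12 x * (b11 x)ᵀ = B ∧ (b32 x - lC x * b12 x) * (b11 x)ᵀ = D

/-- Levi reduction. Coordinates of `x`: the entries of `lC x`, the free entries of
`lA x + (lC x)ᵀ Jw (lC x) / 2`, the entries of `D = (b32 x - lC x * b12 x) * (b11 x)ᵀ`, the free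
entries of `B + ε (Dᵀ Jw D) / 2`, `B = b12 x * (b11 x)ᵀ`, and the coordinates of
`(b11 x, lY x) ∈ GL × IsoG Jw` given by the chart of the hypothesis. -/
def ST_LEV : Prop := ∀ (e : ℕ) (w : Type) [Fintype w] [DecidableEq w] (ε : k) (d : Bool)
  (Jw : Matrix w w k), IsSg ε d → IsForm ε Jw → ∀ (sE : Matrix (Fin e) (Fin e) k)
  (sw : Matrix w w k), sE.det ≠ 0 → swᵀ * Jw * sw = Jw →
  (∀ x ∈ cmm (isoHom (LJ (Fin e) ε Jw)) (dg sE (sEᵀ)⁻¹ sw),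
    b12 (isoHom _ x) = 0 ∧ b13 (isoHom _ x) = 0 ∧ b21 (isoHom _ x) = 0 ∧ b23 (isoHom _ x) = 0 ∧
    b31 (isoHom _ x) = 0 ∧ b32 (isoHom _ x) = 0) →
  HC (pHom (glHom (Fin e) k) (isoHom Jw)) (fromBlocks sE 0 0 sw) →
  HC (isoHom (LJ (Fin e) ε Jw)) (dg sE (sEᵀ)⁻¹ sw)

/-- Chart for `GL_e / ∏ GL(V_λ)`, `V_λ` the eigenspaces of a diagonal matrix: for every eigenvalue
`λ`, of multiplicity `d_λ`, the entries of `(columns λ) * (first d_λ rows of them)⁻¹`. -/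
def ST_GLC : Prop := ∀ (e : ℕ) (χ : Fin e → k), HC (glHom (Fin e) k) (diagonal χ)

/-- Chart for `I(Jp ⊕ Jq) / I(Jp) × I(Jq)` when nothing anticommutes with `diag(1, -1)`:
`x21 * x11⁻¹`. -/
def ST_W1 : Prop := ∀ (p q : Type) [Fintype p] [DecidableEq p] [Fintype q] [DecidableEq q]
  (ε : k) (Jp : Matrix p p k) (Jq : Matrix q q k), IsForm ε Jp → IsForm ε Jq →
  (∀ x : IsoG (fromBlocks Jp 0 0 Jq), fromBlocks 1 0 0 (-1) * isoHom _ x ≠
    -(isoHom _ x * fromBlocks 1 0 0 (-1))) →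
  HC (isoHom (fromBlocks Jp 0 0 Jq)) (fromBlocks 1 0 0 (-1))

/-- Two forms of the same type and size are equivalent. -/
def ST_EQV : Prop := ∀ (n m : Type) [Fintype n] [DecidableEq n] [Fintype m] [DecidableEq m]
  (ε : k) (J : Matrix n n k) (J' : Matrix m m k), IsForm ε J → IsForm ε J' →
  Fintype.card n = Fintype.card m → ∃ u : Matrix n m k, uᵀ * J * u = J'

/-- Symplectic isometries are products of transvections. -/
def ST_GENA : Prop := ∀ (n : Type) [Fintype n] [DecidableEq n] (J : Matrix n n k),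
  IsForm (-1) J → ∀ x : Matrix n n k, xᵀ * J * x = J →
  x ∈ Submonoid.closure {R : Matrix n n k | ∃ (v : n → k) (c : k),
    R = 1 + c • vecMulVec v (J *ᵥ v)}

/-- Orthogonal isometries are products of reflections (Cartan, Dieudonne, without count). -/
def ST_GENS : Prop := ∀ (n : Type) [Fintype n] [DecidableEq n] (J : Matrix n n k),
  IsForm 1 J → ∀ x : Matrix n n k, xᵀ * J * x = J →
  x ∈ Submonoid.closure {R : Matrix n n k | ∃ v : n → k, v ⬝ᵥ (J *ᵥ v) ≠ 0 ∧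
    R = 1 - (2 / (v ⬝ᵥ (J *ᵥ v))) • vecMulVec v (J *ᵥ v)}

/-- Symplectic isometries have determinant one (from `ST_GENA`). -/
def ST_DET1 : Prop := ∀ (n : Type) [Fintype n] [DecidableEq n] (J : Matrix n n k),
  IsForm (-1) J → ∀ x : Matrix n n k, xᵀ * J * x = J → x.det = 1

/-- A reflection. -/
def ST_REFL : Prop := ∀ (n : Type) [Fintype n] [DecidableEq n] [Nonempty n] (J : Matrix n n k),
  IsForm 1 J → ∃ x : Matrix n n k, xᵀ * J * x = J ∧ x.det = -1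

/-- Irreducibility of the isometry groups. -/
def ST_IRR : Prop := ∀ (n : Type) [Fintype n] [DecidableEq n] (ε : k) (J : Matrix n n k),
  IsForm ε J → Irr (mAlg (isoHom J))

/-- The commutant of the isometry group. -/
def ST_CEN : Prop := ∀ (n : Type) [Fintype n] [DecidableEq n] (ε : k) (J : Matrix n n k),
  IsForm ε J → (ε = 1 → 3 ≤ Fintype.card n) → ∀ c : Matrix n n k,
  (∀ x : IsoG J, c * isoHom J x = isoHom J x * c) → ∃ a : k, c = a • (1 : Matrix n n k)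

/-- Chart for the trivial group, equivariant for the centre. -/
def ST_CC : Prop := ∀ (n : Type) [Fintype n] [DecidableEq n] (ε : k) (J : Matrix n n k),
  IsForm ε J → (ε = 1 → 3 ≤ Fintype.card n) →
  HasLChart (mAlg (isoHom J)) ⊥ (Subgroup.center (IsoG J))

/-- The isometry group is closed in the matrices (`Aff.of`, coordinates = entries, equations
`XᵀJX = J`, `det X = 1`). -/
def ST_AFF : Prop := ∀ (n : Type) [Fintype n] [DecidableEq n] (J : Matrix n n k),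
  Aff (mAlg (isoHom J))

/-- Right translations, products and inverses (`x⁻¹ = adjugate x`) are regular. -/
def ST_GRP : Prop := ∀ (n : Type) [Fintype n] [DecidableEq n] (J : Matrix n n k),
  RStable (mAlg (isoHom J)) ∧ GrpAlg (mAlg (isoHom J))

/-- The centre is finite (from `ST_CEN`). -/
def ST_FCE : Prop := ∀ (n : Type) [Fintype n] [DecidableEq n] (ε : k) (J : Matrix n n k),
  IsForm ε J → (ε = 1 → 3 ≤ Fintype.card n) → Finite (Subgroup.center (IsoG J))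

/-- Finite order modulo the centre implies finite order. -/
def ST_FO : Prop := ∀ (n : Type) [Fintype n] [DecidableEq n] (ε : k) (J : Matrix n n k),
  IsForm ε J → (ε = 1 → 3 ≤ Fintype.card n) → ∀ s : Matrix n n k, sᵀ * J * s = J →
  ∀ M : ℕ, 0 < M → (∀ x : IsoG J, s ^ M * isoHom J x = isoHom J x * s ^ M ∨
    s ^ M * isoHom J x = -(isoHom J x * s ^ M)) → ∃ N : ℕ, 0 < N ∧ s ^ N = 1

/-- Diagonalisation of `ε`-hermitian matrices. -/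
def ST_DIAG : Prop := ∀ (L : Type u) [Field L] [CharZero L] (θ : L ≃+* L), (∀ x, θ (θ x) = x) →
  (∃ x, θ x ≠ x) → ∀ ε : L, (ε = 1 ∨ ε = -1) → ∀ (b : ℕ) (H : Matrix (Fin b) (Fin b) L),
  Hᵀ = ε • H.map θ → ∃ (E : Matrix (Fin b) (Fin b) L) (D : Fin b → L), E.det ≠ 0 ∧
    Eᵀ * H * E.map θ = diagonal D

/-- Witt cancellation for `ε`-hermitian matrices. -/
def ST_WIT : Prop := ∀ (L : Type u) [Field L] [CharZero L] (θ : L ≃+* L), (∀ x, θ (θ x) = x) →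
  ∀ ε : L, (ε = 1 ∨ ε = -1) → ∀ (b : ℕ) (n : Type) [Fintype n] [DecidableEq n] (D : Fin b → L)
  (H₁ H₂ : Matrix n n L), (∀ j, D j ≠ 0 ∧ D j = ε * θ (D j)) → H₁ᵀ = ε • H₁.map θ →
  H₂ᵀ = ε • H₂.map θ → ∀ E : Matrix (Fin b ⊕ n) (Fin b ⊕ n) L, E.det ≠ 0 →
  Eᵀ * fromBlocks (diagonal D) 0 0 H₁ * E.map θ = fromBlocks (diagonal D) 0 0 H₂ →
  ∃ E' : Matrix n n L, E'.det ≠ 0 ∧ E'ᵀ * H₁ * E'.map θ = H₂

/-- `Γ` is generically invertible. -/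
def ST_GNZ : Prop := ∀ (b r : ℕ) (ε : k) (d : Bool) (Jr : Matrix (Fin r) (Fin r) k), IsSg ε d →
  IsForm ε Jr → (r = 0 → ε = 1 → Even b) →
  (bGam ε (JR Jr) (X : BI b r d → MvPolynomial (BI b r d) k)).det ≠ 0

/-- The `ε`-hermitian form `J_N g` over the function field of the base is hyperbolic (cleared of
denominators). -/
def ST_HYP : Prop := ∀ (b r : ℕ) (ε : k) (d : Bool) (Jr : Matrix (Fin r) (Fin r) k), IsSg ε d →
  IsForm ε Jr → (r = 0 → ε = 1 → Even b) →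
  ∃ (m : Matrix (Fin r ⊕ Fin r) (Fin r ⊕ Fin r) (MvPolynomial (BI b r d) k))
    (D : MvPolynomial (BI b r d) k), D ≠ 0 ∧
    mᵀ * (JR Jr).map (algebraMap k (MvPolynomial (BI b r d) k)) *
      bG ε (JR Jr) (X : BI b r d → MvPolynomial (BI b r d) k) *
      m.map (rename (Sum.swap : BI b r d → BI b r d)) = D • HE r (algebraMap k _ ε)

/-- Identities for an isometry `y` of `LJ (Fin b) ε JN` with `b11 y`, `b12 y` invertible. -/
def ST_W4I : Prop := ∀ (b r : ℕ) (ε : k) (d : Bool)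
  (JN : Matrix (Fin r ⊕ Fin r) (Fin r ⊕ Fin r) k), IsSg ε d → IsForm ε JN →
  ∀ y : Matrix (Fin b ⊕ (Fin b ⊕ (Fin r ⊕ Fin r))) (Fin b ⊕ (Fin b ⊕ (Fin r ⊕ Fin r))) k,
  yᵀ * LJ (Fin b) ε JN * y = LJ (Fin b) ε JN → (b11 y).det ≠ 0 → (b12 y).det ≠ 0 →
  bC (lBeta d JN y) = lC y ∧ bC (lBeta d JN y ∘ Sum.swap) = lC' y ∧
  bA ε JN (lBeta d JN y) = lA y ∧ bA ε JN (lBeta d JN y ∘ Sum.swap) = lA' y ∧
  (bGam ε JN (lBeta d JN y)).det ≠ 0 ∧ (lY y)ᵀ * JN * lY y = JN ∧ (lY' y)ᵀ * JN * lY' y = JN ∧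
  (bGam ε JN (lBeta d JN y)).det • lY y = bG ε JN (lBeta d JN y) * lY' y ∧ y.det = (lY y).det

/-- Right multiplication by block diagonal and by swapping elements. -/
def ST_W4H : Prop := ∀ (b r : ℕ)
  (y : Matrix (Fin b ⊕ (Fin b ⊕ (Fin r ⊕ Fin r))) (Fin b ⊕ (Fin b ⊕ (Fin r ⊕ Fin r))) k)
  (h h' : Matrix (Fin b) (Fin b) k) (hN : Matrix (Fin r ⊕ Fin r) (Fin r ⊕ Fin r) k),
  h.det ≠ 0 → h'.det ≠ 0 →
  (b11 (y * dg h h' hN) = b11 y * h ∧ b12 (y * dg h h' hN) = b12 y * h' ∧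
    lC (y * dg h h' hN) = lC y ∧ lA (y * dg h h' hN) = lA y ∧ lC' (y * dg h h' hN) = lC' y ∧
    lA' (y * dg h h' hN) = lA' y ∧ lY (y * dg h h' hN) = lY y * hN ∧
    lY' (y * dg h h' hN) = lY' y * hN) ∧
  (b11 (y * mk3 0 h' 0 h 0 0 0 0 hN) = b12 y * h ∧ b12 (y * mk3 0 h' 0 h 0 0 0 0 hN) = b11 y * h' ∧
    lC (y * mk3 0 h' 0 h 0 0 0 0 hN) = lC' y ∧ lA (y * mk3 0 h' 0 h 0 0 0 0 hN) = lA' y ∧
    lC' (y * mk3 0 h' 0 h 0 0 0 0 hN) = lC y ∧ lA' (y * mk3 0 h' 0 h 0 0 0 0 hN) = lA y ∧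
    lY (y * mk3 0 h' 0 h 0 0 0 0 hN) = lY' y * hN ∧ lY' (y * mk3 0 h' 0 h 0 0 0 0 hN) = lY y * hN)

/-- Construction of an isometry from the base point and `Y`. -/
def ST_W4D : Prop := ∀ (b r : ℕ) (ε : k) (d : Bool)
  (JN : Matrix (Fin r ⊕ Fin r) (Fin r ⊕ Fin r) k), IsSg ε d → IsForm ε JN →
  ∀ (β : BI b r d → k) (Y : Matrix (Fin r ⊕ Fin r) (Fin r ⊕ Fin r) k),
  (bGam ε JN β).det ≠ 0 → Yᵀ * JN * Y = JN → ∀ y, y = nLow JN (bA ε JN β) (bC β) *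
    nUp ε JN (bGam ε JN β)⁻¹ (-(bDel β * (bGam ε JN β)⁻¹)) * dg 1 1 Y →
  yᵀ * LJ (Fin b) ε JN * y = LJ (Fin b) ε JN ∧ y.det = Y.det ∧ (b11 y).det ≠ 0 ∧
    (b12 y).det ≠ 0 ∧ lBeta d JN y = β ∧ lY y = Y

/-- An isometry of `JR Jr` of determinant one with prescribed image of the first eigenspace. -/
def ST_W4Y : Prop := ∀ (r : ℕ) (ε : k) (Jr : Matrix (Fin r) (Fin r) k), IsForm ε Jr →
  ∀ Q : Matrix (Fin r ⊕ Fin r) (Fin r) k, (Qᵀ * JR Jr * Q).det ≠ 0 →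
  ∃ (Y : Matrix (Fin r ⊕ Fin r) (Fin r ⊕ Fin r) k) (g : Matrix (Fin r) (Fin r) k),
    Yᵀ * JR Jr * Y = JR Jr ∧ Y.det = 1 ∧ g.det ≠ 0 ∧
    Y * fromRows (1 : Matrix (Fin r) (Fin r) k) (1 : Matrix (Fin r) (Fin r) k) = Q * g

/-- A non-degenerate graph. -/
def ST_W4X : Prop := ∀ (r : ℕ) (ε : k) (Jr : Matrix (Fin r) (Fin r) k)
  (M : Matrix (Fin r ⊕ Fin r) (Fin r ⊕ Fin r) k), IsForm ε Jr → IsForm ε M →
  ∃ X : Matrix (Fin r) (Fin r) k,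
    ((fromRows (1 : Matrix (Fin r) (Fin r) k) X)ᵀ * M * fromRows 1 X).det ≠ 0

/-- The chart for the eigenvalues `1, -1, i, -i` (multiplicities `r, r, b, b`). -/
def ST_W4 : Prop := ∀ (b r : ℕ) (ε : k) (d : Bool) (Jr : Matrix (Fin r) (Fin r) k) (I : k),
  IsSg ε d → IsForm ε Jr → I * I = -1 → (r = 0 → ε = 1 → Even b) →
  HC (isoHom (LJ (Fin b) ε (JR Jr)))
    (dg (I • (1 : Matrix (Fin b) (Fin b) k)) (-I • (1 : Matrix (Fin b) (Fin b) k))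
      (fromBlocks 0 1 1 0))

/-- Normal form of an isometry of finite order: splitting off the eigenvalues with `P`. -/
def ST_NF1 : Prop := ∀ (n : Type) [Fintype n] [DecidableEq n] (ε : k) (J s : Matrix n n k),
  IsForm ε J → sᵀ * J * s = J → ∀ N : ℕ, 0 < N → s ^ N = 1 → ∀ P : k → Prop,
  (∀ l, P l → ¬ P l⁻¹) →
  ∃ (e w : ℕ) (u : Matrix n (Fin e ⊕ (Fin e ⊕ Fin w)) k) (v : Matrix (Fin e ⊕ (Fin e ⊕ Fin w)) n k)
    (χ : Fin e → k) (χw : Fin w → k) (Jw : Matrix (Fin w) (Fin w) k),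
    u * v = 1 ∧ v * u = 1 ∧ uᵀ * J * u = LJ (Fin e) ε Jw ∧
    v * s * u = dg (diagonal χ) (diagonal fun i => (χ i)⁻¹) (diagonal χw) ∧
    (∀ i, P (χ i) ∧ χ i ≠ 0) ∧ (∀ j, ¬ P (χw j) ∧ ¬ P (χw j)⁻¹ ∧ χw j ≠ 0) ∧ IsForm ε Jw ∧
    (diagonal χw)ᵀ * Jw * diagonal χw = Jw

/-- Normal form of an isometry with eigenvalues `1, -1, i, -i` which anticommutes with an element of
the group. -/
def ST_NF2 : Prop := ∀ (w : ℕ) (ε : k) (Jw : Matrix (Fin w) (Fin w) k) (χ : Fin w → k) (I : k),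
  IsForm ε Jw → I * I = -1 → (diagonal χ)ᵀ * Jw * diagonal χ = Jw →
  (∀ j, χ j = 1 ∨ χ j = -1 ∨ χ j = I ∨ χ j = -I) →
  (∃ h : IsoG Jw, diagonal χ * isoHom Jw h = -(isoHom Jw h * diagonal χ)) →
  ∃ (b r : ℕ) (Jr : Matrix (Fin r) (Fin r) k)
    (u : Matrix (Fin w) (Fin b ⊕ (Fin b ⊕ (Fin r ⊕ Fin r))) k)
    (v : Matrix (Fin b ⊕ (Fin b ⊕ (Fin r ⊕ Fin r))) (Fin w) k),
    u * v = 1 ∧ v * u = 1 ∧ IsForm ε Jr ∧ (r = 0 → ε = 1 → Even b) ∧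
    uᵀ * Jw * u = LJ (Fin b) ε (JR Jr) ∧
    v * diagonal χ * u = dg (I • (1 : Matrix (Fin b) (Fin b) k))
      (-I • (1 : Matrix (Fin b) (Fin b) k)) (fromBlocks 0 1 1 0)

/-- The chart when the eigenvalues are `1` and `-1` and nothing anticommutes (from `ST_W1`,
`ST_TRN`). -/
def ST_W1N : Prop := ∀ (w : ℕ) (ε : k) (Jw : Matrix (Fin w) (Fin w) k) (χ : Fin w → k),
  IsForm ε Jw → (diagonal χ)ᵀ * Jw * diagonal χ = Jw → (∀ j, χ j = 1 ∨ χ j = -1) →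
  (∀ h : IsoG Jw, diagonal χ * isoHom Jw h ≠ -(isoHom Jw h * diagonal χ)) →
  HC (isoHom Jw) (diagonal χ)

/-- The chart in the form needed for the assembly: `T` is conjugation by the isometry `s`
(from `ST_II`, `ST_FO`, `ST_CEN`: `fixSub T = cm s`, `fixMod T ≤ cmm s`, a power of `T` moves every
element by a central one). -/
def ST_TCH : Prop := ∀ (n : Type) [Fintype n] [DecidableEq n] (ε : k) (J s : Matrix n n k),
  IsForm ε J → (ε = 1 → 3 ≤ Fintype.card n) → sᵀ * J * s = J → ∀ T : IsoG J ≃* IsoG J,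
  (∀ x, isoHom J (T x) * s = s * isoHom J x) → FinMod T →
  HasLChart (mAlg (isoHom J)) (fixSub T) (fixMod T)

/-- The chart for every isometry of finite order. -/
def ST_II : Prop := ∀ (n : Type) [Fintype n] [DecidableEq n] (ε : k) (J s : Matrix n n k),
  IsForm ε J → sᵀ * J * s = J → ∀ N : ℕ, 0 < N → s ^ N = 1 → HC (isoHom J) s

end Pool.Agent.Helper97.CG
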