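import Pool.Agent.Helper97.CG.Defs

namespace Pool.Agent.Helper97.CG

set_option linter.unusedSectionVars false

open MvPolynomial Matrix Pool.Agent.Helper14.RG

section Blocks

variable {R : Type*} {e w : Type*}

lemma mk3_eta (x : Matrix (e ⊕ (e ⊕ w)) (e ⊕ (e ⊕ w)) R) :
    mk3 (b11 x) (b12 x) (b13 x) (b21 x) (b22 x) (b23 x) (b31 x) (b32 x) (b33 x) = x := by
  ext i j
  rcases i with i | i | i <;> rcases j with j | j | j <;> rfl

lemma mk3_inj {a11 a12 : Matrix e e R} {a13 : Matrix e w R} {a21 a22 : Matrix e e R}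
    {a23 : Matrix e w R} {a31 a32 : Matrix w e R} {a33 : Matrix w w R}
    {c11 c12 : Matrix e e R} {c13 : Matrix e w R} {c21 c22 : Matrix e e R}
    {c23 : Matrix e w R} {c31 c32 : Matrix w e R} {c33 : Matrix w w R}
    (h : mk3 a11 a12 a13 a21 a22 a23 a31 a32 a33 = mk3 c11 c12 c13 c21 c22 c23 c31 c32 c33) :
    (a11 = c11 ∧ a12 = c12 ∧ a13 = c13) ∧ (a21 = c21 ∧ a22 = c22 ∧ a23 = c23) ∧
      (a31 = c31 ∧ a32 = c32 ∧ a33 = c33) := by
  refine ⟨⟨?_, ?_, ?_⟩, ⟨?_, ?_, ?_⟩, ⟨?_, ?_, ?_⟩⟩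
  · exact congrArg b11 h
  · exact congrArg b12 h
  · exact congrArg b13 h
  · exact congrArg b21 h
  · exact congrArg b22 h
  · exact congrArg b23 h
  · exact congrArg b31 h
  · exact congrArg b32 h
  · exact congrArg b33 h

lemma mk3_transpose (a11 a12 : Matrix e e R) (a13 : Matrix e w R) (a21 a22 : Matrix e e R)
    (a23 : Matrix e w R) (a31 a32 : Matrix w e R) (a33 : Matrix w w R) :
    (mk3 a11 a12 a13 a21 a22 a23 a31 a32 a33)ᵀ =
      mk3 a11ᵀ a21ᵀ a31ᵀ a12ᵀ a22ᵀ a32ᵀ a13ᵀ a23ᵀ a33ᵀ := by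
  ext i j
  rcases i with i | i | i <;> rcases j with j | j | j <;> rfl

lemma mk3_map {S : Type*} (f : R → S) (a11 a12 : Matrix e e R) (a13 : Matrix e w R)
    (a21 a22 : Matrix e e R)
    (a23 : Matrix e w R) (a31 a32 : Matrix w e R) (a33 : Matrix w w R) :
    (mk3 a11 a12 a13 a21 a22 a23 a31 a32 a33).map f =
      mk3 (a11.map f) (a12.map f) (a13.map f) (a21.map f) (a22.map f) (a23.map f)
        (a31.map f) (a32.map f) (a33.map f) := by
  ext i j
  rcases i with i | i | i <;> rcases j with j | j | j <;> rfl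

variable [CommRing R] [Fintype e] [DecidableEq e] [Fintype w] [DecidableEq w]

lemma mk3_mul (a11 a12 : Matrix e e R) (a13 : Matrix e w R) (a21 a22 : Matrix e e R)
    (a23 : Matrix e w R) (a31 a32 : Matrix w e R) (a33 : Matrix w w R)
    (c11 c12 : Matrix e e R) (c13 : Matrix e w R) (c21 c22 : Matrix e e R)
    (c23 : Matrix e w R) (c31 c32 : Matrix w e R) (c33 : Matrix w w R) :
    mk3 a11 a12 a13 a21 a22 a23 a31 a32 a33 * mk3 c11 c12 c13 c21 c22 c23 c31 c32 c33 =
      mk3 (a11 * c11 + a12 * c21 + a13 * c31) (a11 * c12 + a12 * c22 + a13 * c32)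
        (a11 * c13 + a12 * c23 + a13 * c33)
        (a21 * c11 + a22 * c21 + a23 * c31) (a21 * c12 + a22 * c22 + a23 * c32)
        (a21 * c13 + a22 * c23 + a23 * c33)
        (a31 * c11 + a32 * c21 + a33 * c31) (a31 * c12 + a32 * c22 + a33 * c32)
        (a31 * c13 + a32 * c23 + a33 * c33) := by
  ext i j
  rcases i with i | i | i <;> rcases j with j | j | j <;>
    simp [Matrix.mul_apply, mk3, Fintype.sum_sum_type, add_assoc]

omit [Fintype e] [Fintype w] in
lemma mk3_one : (mk3 1 0 0 0 1 0 0 0 1 : Matrix (e ⊕ (e ⊕ w)) (e ⊕ (e ⊕ w)) R) = 1 := by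
  ext i j
  rcases i with i | i | i <;> rcases j with j | j | j <;>
    simp [mk3, Matrix.one_apply]

omit [Fintype e] [Fintype w] [DecidableEq e] [DecidableEq w] in
lemma mk3_smul (c : R) (a11 a12 : Matrix e e R) (a13 : Matrix e w R) (a21 a22 : Matrix e e R)
    (a23 : Matrix e w R) (a31 a32 : Matrix w e R) (a33 : Matrix w w R) :
    c • mk3 a11 a12 a13 a21 a22 a23 a31 a32 a33 =
      mk3 (c • a11) (c • a12) (c • a13) (c • a21) (c • a22) (c • a23) (c • a31) (c • a32)
        (c • a33) := by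
  ext i j
  rcases i with i | i | i <;> rcases j with j | j | j <;> rfl

omit [Fintype e] [Fintype w] [DecidableEq e] [DecidableEq w] in
lemma mk3_neg (a11 a12 : Matrix e e R) (a13 : Matrix e w R) (a21 a22 : Matrix e e R)
    (a23 : Matrix e w R) (a31 a32 : Matrix w e R) (a33 : Matrix w w R) :
    -mk3 a11 a12 a13 a21 a22 a23 a31 a32 a33 =
      mk3 (-a11) (-a12) (-a13) (-a21) (-a22) (-a23) (-a31) (-a32) (-a33) := by
  ext i j
  rcases i with i | i | i <;> rcases j with j | j | j <;> rfl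

omit [Fintype e] [Fintype w] [DecidableEq e] [DecidableEq w] in
/-- as nested `fromBlocks` -/
lemma mk3_fromBlocks (a11 a12 : Matrix e e R) (a13 : Matrix e w R) (a21 a22 : Matrix e e R)
    (a23 : Matrix e w R) (a31 a32 : Matrix w e R) (a33 : Matrix w w R) :
    mk3 a11 a12 a13 a21 a22 a23 a31 a32 a33 =
      fromBlocks a11 (Matrix.of fun i j => Sum.elim (a12 i) (a13 i) j)
        (Matrix.of fun i j => Sum.elim (fun i => a21 i j) (fun i => a31 i j) i)
        (fromBlocks a22 a23 a32 a33) := by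
  ext i j
  rcases i with i | i | i <;> rcases j with j | j | j <;> rfl

lemma det_nLow (Jw : Matrix w w R) (A : Matrix e e R) (C : Matrix w e R) :
    (nLow Jw A C).det = 1 := by
  have h : (Matrix.of fun i j => Sum.elim ((0 : Matrix e e R) i) ((0 : Matrix e w R) i) j :
      Matrix e (e ⊕ w) R) = 0 := by
    ext i j
    rcases j with j | j <;> rfl
  rw [nLow, mk3_fromBlocks, h, det_fromBlocks_zero₁₂, det_fromBlocks_zero₂₁]
  simp

lemma det_nUp (ε : R) (Jw : Matrix w w R) (B : Matrix e e R) (D : Matrix w e R) :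
    (nUp ε Jw B D).det = 1 := by
  have h : (Matrix.of fun i j => Sum.elim (fun i => (0 : Matrix e e R) i j)
      (fun i => (0 : Matrix w e R) i j) i : Matrix (e ⊕ w) e R) = 0 := by
    ext i j
    rcases i with i | i <;> rfl
  rw [nUp, mk3_fromBlocks, h, det_fromBlocks_zero₂₁, det_fromBlocks_zero₁₂]
  simp

lemma det_dg (a a' : Matrix e e R) (Y : Matrix w w R) :
    (dg a a' Y).det = a.det * (a'.det * Y.det) := by
  have h : (Matrix.of fun i j => Sum.elim (fun i => (0 : Matrix e e R) i j)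
      (fun i => (0 : Matrix w e R) i j) i : Matrix (e ⊕ w) e R) = 0 := by
    ext i j
    rcases i with i | i <;> rfl
  rw [dg, mk3_fromBlocks, h, det_fromBlocks_zero₂₁, det_fromBlocks_zero₁₂]

end Blocks

section RegU

variable {k : Type*} [Field k] {X : Type*} {A : Subalgebra k (X → k)}

/-- Refinement of the open set by the non-vanishing of a regular function. -/
lemma exists_refine {q0 f : X → k} (hq : q0 ∈ A) (hf : f ∈ RegU A q0) :
    ∃ q1 ∈ A, ∀ g, q1 g ≠ 0 ↔ (q0 g ≠ 0 ∧ f g ≠ 0) := by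
  obtain ⟨a, ha, b, hb, h⟩ := hf
  refine ⟨q0 * a, mul_mem hq ha, fun g => ?_⟩
  show q0 g * a g ≠ 0 ↔ _
  constructor
  · intro h1
    have h2 := left_ne_zero_of_mul h1
    have h3 := right_ne_zero_of_mul h1
    refine ⟨h2, ?_⟩
    rw [← (h g h2).2] at h3
    exact left_ne_zero_of_mul h3
  · rintro ⟨h2, h3⟩
    rw [← (h g h2).2]
    exact mul_ne_zero h2 (mul_ne_zero h3 (h g h2).1)

lemma RegU_mono {q0 q1 : X → k} (h : ∀ g, q1 g ≠ 0 → q0 g ≠ 0) : RegU A q0 ≤ RegU A q1 := by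
  rintro f ⟨a, ha, b, hb, h1⟩
  exact ⟨a, ha, b, hb, fun g hg => h1 g (h g hg)⟩

/-- the inverse of a regular function, on an open set where it does not vanish -/
lemma inv_mem_RegU' {q0 f : X → k} (hf : f ∈ RegU A q0) (h : ∀ g, q0 g ≠ 0 → f g ≠ 0) :
    (fun g => (f g)⁻¹) ∈ RegU A q0 := by
  obtain ⟨a, ha, b, hb, h1⟩ := hf
  refine ⟨b, hb, a, ha, fun g hg => ?_⟩
  have h2 := h1 g hg
  have h3 := h g hg
  rw [← h2.2]
  exact ⟨mul_ne_zero h3 h2.1, by rw [inv_mul_cancel_left₀ h3]⟩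

/-- entries of an inverse matrix are regular where the determinant does not vanish -/
lemma nonsing_inv_mem_RegU {n : Type*} [Fintype n] [DecidableEq n] {q0 : X → k}
    (M : X → Matrix n n k) (hM : ∀ i j, (fun g => M g i j) ∈ RegU A q0)
    (h : ∀ g, q0 g ≠ 0 → (M g).det ≠ 0) (i j : n) : (fun g => (M g)⁻¹ i j) ∈ RegU A q0 := by
  have h1 : (fun g => (M g)⁻¹ i j) = (fun g => ((M g).det)⁻¹) * (fun g => (M g).adjugate i j) := by
    funext g
    rw [Pi.mul_apply, Matrix.inv_def, Matrix.smul_apply, Ring.inverse_eq_inv', smul_eq_mul]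
  rw [h1]
  exact mul_mem (inv_mem_RegU' (det_mem_alg _ M hM) h) (adjugate_mem_alg _ M hM i j)

/-- Composition of regular functions with a map whose coordinates are regular. -/
lemma comp_mem_RegU {X' : Type*} {A' : Subalgebra k (X' → k)} {S : Set (X' → k)}
    (hA' : A' = Algebra.adjoin k S) {q0 : X → k} (Ψ : X → X')
    (hΨ : ∀ f ∈ S, (fun g => f (Ψ g)) ∈ RegU A q0) {a : X' → k} (ha : a ∈ A') :
    (fun g => a (Ψ g)) ∈ RegU A q0 := by
  rw [hA'] at ha
  induction ha using Algebra.adjoin_induction with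
  | mem x hx => exact hΨ x hx
  | algebraMap r => exact Subalgebra.algebraMap_mem (RegU A q0) r
  | add x y _ _ hx hy => exact add_mem hx hy
  | mul x y _ _ hx hy => exact mul_mem hx hy

/-- the same for functions regular on an open set of the target -/
lemma comp_mem_RegU' {X' : Type*} {A' : Subalgebra k (X' → k)} {S : Set (X' → k)}
    (hA' : A' = Algebra.adjoin k S) {q0 : X → k} (Ψ : X → X')
    (hΨ : ∀ f ∈ S, (fun g => f (Ψ g)) ∈ RegU A q0) {q' : X' → k}
    (hq' : ∀ g, q0 g ≠ 0 → q' (Ψ g) ≠ 0) {f : X' → k} (hf : f ∈ RegU A' q') :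
    (fun g => f (Ψ g)) ∈ RegU A q0 := by
  obtain ⟨a, ha, b, hb, h⟩ := hf
  obtain ⟨a1, ha1, a2, ha2, h1⟩ := comp_mem_RegU hA' Ψ hΨ ha
  obtain ⟨c1, hc1, c2, hc2, h2⟩ := comp_mem_RegU hA' Ψ hΨ hb
  refine ⟨a1 * c2, mul_mem ha1 hc2, a2 * c1, mul_mem ha2 hc1, fun g hg => ?_⟩
  have e1 := h1 g hg
  have e2 := h2 g hg
  have e3 := h (Ψ g) (hq' g hg)
  have e4 : c1 g ≠ 0 := by rw [← e2.2]; exact mul_ne_zero e3.1 e2.1
  refine ⟨mul_ne_zero e1.1 e4, ?_⟩
  show f (Ψ g) * (a2 g * c1 g) = a1 g * c2 g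
  rw [← e1.2, ← e2.2]
  show f (Ψ g) * (a2 g * (b (Ψ g) * c2 g)) = a (Ψ g) * a2 g * c2 g
  rw [← e3.2]
  ring

end RegU

section Poly

variable {k : Type*} [Field k] [Infinite k] {N₁ N₂ : Type*}

/-- specialisation of the first group of variables -/
lemma exists_special (P : MvPolynomial (N₁ ⊕ N₂) k) (hP : P ≠ 0) :
    ∃ u : N₁ → k, (aeval (Sum.elim (fun i => C (u i)) X) P : MvPolynomial N₂ k) ≠ 0 := by
  by_contra hcon
  push Not at hcon
  apply hP
  apply MvPolynomial.funext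
  intro x
  have h1 := congrArg (eval (fun j => x (Sum.inr j))) (hcon (fun i => x (Sum.inl i)))
  rw [map_zero] at h1 ⊢
  rw [← h1]
  have h2 : ∀ Q : MvPolynomial (N₁ ⊕ N₂) k, eval (fun j => x (Sum.inr j))
      (aeval (Sum.elim (fun i => C (x (Sum.inl i))) X) Q : MvPolynomial N₂ k) = eval x Q := by
    intro Q
    induction Q using MvPolynomial.induction_on with
    | C c => simp
    | add p q hp hq => rw [map_add, map_add, map_add, hp, hq]
    | mul_X p j hp =>
      rw [map_mul, map_mul, map_mul, hp]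
      rcases j with j | j <;> simp
  rw [h2]

lemma eval_special (u : N₁ → k) (v : N₂ → k) (P : MvPolynomial (N₁ ⊕ N₂) k) :
    eval v (aeval (Sum.elim (fun i => C (u i)) X) P : MvPolynomial N₂ k) =
      eval (Sum.elim u v) P := by
  induction P using MvPolynomial.induction_on with
  | C c => simp
  | add p q hp hq => rw [map_add, map_add, map_add, hp, hq]
  | mul_X p j hp =>
    rw [map_mul, map_mul, map_mul, hp]
    rcases j with j | j <;> simp

end Poly

end Pool.Agent.Helper97.CG
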