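import Pool.Agent.Helper14.RG.LC.Cl4
import Pool.Agent.Helper76.CG.II
import Pool.Agent.Helper76.CG.Irr
import Pool.Agent.Helper79.CG.CC
import Pool.Agent.Helper14.CG.CEN
import Pool.Agent.Helper48.CG.DET1
import Pool.Agent.Helper48.CG.EQV
import Pool.Agent.Helper48.CG.W4X
import Pool.Agent.Helper48.CG.W4Y
import Pool.Agent.Helper19.CG.DIAG
import Pool.Agent.Helper19.CG.LEVC
import Pool.Agent.Helper19.CG.LEVF
import Pool.Agent.Helper19.CG.REFL
import Pool.Agent.Helper19.CG.W1
import Pool.Agent.Helper19.CG.W4D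
import Pool.Agent.Helper19.CG.W4H
import Pool.Agent.Helper28.CG.GENA
import Pool.Agent.Helper51.CG.GENS
import Pool.Agent.Helper61.CG.GLC
import Pool.Agent.Helper27.CG.GNZ
import Pool.Agent.Helper27.CG.W4I
import Pool.Agent.Helper27.CG.WIT
import Pool.Agent.Helper18.CGH.HYP
import Pool.Agent.Helper15.CG.LEV
import Pool.Agent.Helper82.CG.NF1
import Pool.Agent.Helper82.CG.NF2
import Pool.Agent.Helper52.CG.PRD
import Pool.Agent.Helper52.CG.TRN
import Pool.Agent.Helper52.CG.W1N
import Pool.Agent.Helper97.CG.W4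

universe u
namespace Pool.Agent.Helper97.CG
open Pool.Agent.Helper14.RG
open Pool.Agent.Helper19.CG Pool.Agent.Helper18.CGH Pool.Agent.Helper51.CG Pool.Agent.Helper52.CG Pool.Agent.Helper61.CG Pool.Agent.Helper79.CG in
theorem all_II {k : Type u} [Field k] [IsAlgClosed k] [CharZero k] :
    ST_IRR k ∧ ST_CEN k ∧ ST_CC k ∧ ST_II k := by
  have eqv := st_EQV k
  have gena := st_GENA k
  have gens := st_GENS (k := k)
  have det1 := st_DET1 k gena
  have refl := st_REFL (k := k)
  have levf := st_LEVF (k := k)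
  have levc := st_LEVC (k := k)
  have gnz := st_GNZ k
  have hyp := st_HYP eqv st_DIAG.{u} st_WIT.{u} gnz
  have cen := st_CEN eqv
  have w4y := st_W4Y k eqv det1 refl
  have w4 := st_W4 hyp (st_W4I k levf) st_W4H (st_W4D levc) w4y (st_W4X k eqv) gnz
  have trn := st_TRN (k := k)
  have w1 := st_W1 eqv det1 refl
  exact ⟨st_IRR gens gena, cen, st_CC levf levc eqv cen,
    st_II trn (st_LEV levf levc) st_PRD (st_GLC k) st_NF1 st_NF2 w4 (st_W1N w1 trn)⟩
end Pool.Agent.Helper97.CG
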