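import Pool.Agent.Helper97.CG.Stmts

/-!
# API of `skw`, `bC`, `bA`, `bGam`, `bDel`, `bG`
-/

namespace Pool.Agent.Helper97.CG

open MvPolynomial Matrix Pool.Agent.Helper14.RG

universe u

section Skw

variable {R : Type*} [CommRing R] {S : Type*} [CommRing S] {e : ℕ} {d : Bool} {ε : R}

lemma IsSg.sq (h : IsSg ε d) : ε * ε = 1 := by
  rcases h with ⟨_, rfl⟩ | ⟨_, rfl⟩ <;> ring

lemma IsSg.map (h : IsSg ε d) (f : R →+* S) : IsSg (f ε) d := by
  rcases h with ⟨h, rfl⟩ | ⟨h, rfl⟩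
  · exact Or.inl ⟨h, by rw [map_neg, map_one]⟩
  · exact Or.inr ⟨h, by rw [map_one]⟩

lemma skw_lt (ε : R) (z : KI e d → R) {i j : Fin e} (h : i < j) :
    skw ε z i j = z ⟨(i, j), Or.inl h⟩ := by
  show (if h : i < j ∨ (d = true ∧ i = j) then z ⟨(i, j), h⟩
    else if h : j < i then -(ε * z ⟨(j, i), Or.inl h⟩) else 0) = _
  rw [dif_pos (Or.inl h)]

lemma skw_gt (ε : R) (z : KI e d → R) {i j : Fin e} (h : j < i) :
    skw ε z i j = -(ε * z ⟨(j, i), Or.inl h⟩) := by
  show (if h : i < j ∨ (d = true ∧ i = j) then z ⟨(i, j), h⟩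
    else if h : j < i then -(ε * z ⟨(j, i), Or.inl h⟩) else 0) = _
  rw [dif_neg, dif_pos h]
  rintro (h' | ⟨_, h'⟩)
  · exact lt_asymm h h'
  · exact h.ne h'.symm

lemma skw_diag_true (ε : R) (z : KI e true → R) (i : Fin e) :
    skw ε z i i = z ⟨(i, i), Or.inr ⟨rfl, rfl⟩⟩ := by
  show (if h : i < i ∨ (true = true ∧ i = i) then z ⟨(i, i), h⟩
    else if h : i < i then -(ε * z ⟨(i, i), Or.inl h⟩) else 0) = _
  rw [dif_pos (Or.inr ⟨rfl, rfl⟩)]

lemma skw_diag_false (ε : R) (z : KI e false → R) (i : Fin e) : skw ε z i i = 0 := by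
  show (if h : i < i ∨ (false = true ∧ i = i) then z ⟨(i, i), h⟩
    else if h : i < i then -(ε * z ⟨(i, i), Or.inl h⟩) else 0) = _
  rw [dif_neg, dif_neg (lt_irrefl _)]
  rintro (h' | ⟨h', _⟩)
  · exact lt_irrefl _ h'
  · cases h'

lemma skw_transpose (h : IsSg ε d) (z : KI e d → R) : (skw ε z)ᵀ = -(ε • skw ε z) := by
  ext i j
  rw [Matrix.transpose_apply, Matrix.neg_apply, Matrix.smul_apply, smul_eq_mul]
  rcases lt_trichotomy i j with hij | rfl | hij
  · rw [skw_gt ε z hij, skw_lt ε z hij]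
  · rcases h with ⟨rfl, rfl⟩ | ⟨rfl, rfl⟩
    · ring
    · rw [skw_diag_false]; ring
  · rw [skw_lt ε z hij, skw_gt ε z hij]
    have := h.sq
    linear_combination (-(z ⟨(j, i), Or.inl hij⟩)) * this

lemma skw_of [IsDomain R] [CharZero R] (h : IsSg ε d) {K : Matrix (Fin e) (Fin e) R}
    (hK : Kᵀ = -(ε • K)) : skw ε (fun p : KI e d => K p.1.1 p.1.2) = K := by
  have h1 : ∀ i j, K j i = -(ε * K i j) := fun i j => congrFun (congrFun hK i) j
  ext i j
  rcases lt_trichotomy i j with hij | rfl | hij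
  · rw [skw_lt ε _ hij]
  · rcases h with ⟨rfl, rfl⟩ | ⟨rfl, rfl⟩
    · rw [skw_diag_true]
    · rw [skw_diag_false]
      have h2 := h1 i i
      have h3 : (2 : R) * K i i = 0 := by linear_combination h2
      exact ((mul_eq_zero.1 h3).resolve_left two_ne_zero).symm
  · rw [skw_gt ε _ hij, ← h1]

lemma skw_free (ε : R) (z : KI e d → R) (p : KI e d) : skw ε z p.1.1 p.1.2 = z p := by
  obtain ⟨⟨i, j⟩, h⟩ := p
  show (if h : i < j ∨ (d = true ∧ i = j) then z ⟨(i, j), h⟩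
    else if h : j < i then -(ε * z ⟨(j, i), Or.inl h⟩) else 0) = _
  rw [dif_pos h]

lemma skw_map (f : R →+* S) (ε : R) (z : KI e d → R) :
    (skw ε z).map f = skw (f ε) (f ∘ z) := by
  ext i j
  show f (if h : i < j ∨ (d = true ∧ i = j) then z ⟨(i, j), h⟩
    else if h : j < i then -(ε * z ⟨(j, i), Or.inl h⟩) else 0) =
    (if h : i < j ∨ (d = true ∧ i = j) then (f ∘ z) ⟨(i, j), h⟩
    else if h : j < i then -(f ε * (f ∘ z) ⟨(j, i), Or.inl h⟩) else 0)
  split_ifs
  · rfl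
  · rw [map_neg, map_mul]; rfl
  · rw [map_zero]

lemma skw_inj (ε : R) {z z' : KI e d → R} (h : skw ε z = skw ε z') : z = z' := by
  funext p
  rw [← skw_free ε z p, h, skw_free]

end Skw

section Base

variable {k : Type u} [Field k] {R S : Type*} [CommRing R] [Algebra k R] [CommRing S]
  [Algebra k S] {b r : ℕ} {d : Bool} {ε : k} {JN : Matrix (Fin r ⊕ Fin r) (Fin r ⊕ Fin r) k}

lemma bC_map (f : R →ₐ[k] S) (β : BI b r d → R) : (bC β).map f = bC (f ∘ β) := rfl

lemma bA_map (f : R →ₐ[k] S) (β : BI b r d → R) :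
    (bA ε JN β).map f = bA ε JN (f ∘ β) := by
  have h1 : (JN.map (algebraMap k R)).map f = JN.map (algebraMap k S) := by
    ext i j
    exact f.commutes _
  have h2 := skw_map (f : R →+* S) (algebraMap k R ε) (fun p => β (Sum.inl (Sum.inr p)))
  have h3 : (f : R →+* S) (algebraMap k R ε) = algebraMap k S ε := f.commutes _
  rw [h3] at h2
  have h4 : ((bC β)ᵀ * JN.map (algebraMap k R) * bC β).map (f : R → S) =
      (bC (f ∘ β))ᵀ * JN.map (algebraMap k S) * bC (f ∘ β) := by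
    have := Matrix.map_mul (f := (f : R →+* S)) (L := (bC β)ᵀ * JN.map (algebraMap k R))
      (M := bC β)
    have h5 := Matrix.map_mul (f := (f : R →+* S)) (L := (bC β)ᵀ)
      (M := JN.map (algebraMap k R))
    rw [h5] at this
    have h6 : ((bC β)ᵀ).map (f : R →+* S) = (bC (f ∘ β))ᵀ := rfl
    have h7 : (bC β).map (f : R →+* S) = bC (f ∘ β) := rfl
    have h8 : (JN.map (algebraMap k R)).map (f : R →+* S) = JN.map (algebraMap k S) := h1
    rw [h6, h7, h8] at this
    exact this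
  ext i j
  show f ((skw (algebraMap k R ε) (fun p => β (Sum.inl (Sum.inr p))) -
    (2⁻¹ : k) • ((bC β)ᵀ * JN.map (algebraMap k R) * bC β)) i j) = _
  rw [Matrix.sub_apply, Matrix.smul_apply, map_sub, map_smul]
  have h9 := congrFun (congrFun h4 i) j
  have h10 := congrFun (congrFun h2 i) j
  rw [Matrix.map_apply] at h9 h10
  show _ = (skw (algebraMap k S ε) (fun p => (f ∘ β) (Sum.inl (Sum.inr p))) -
    (2⁻¹ : k) • ((bC (f ∘ β))ᵀ * JN.map (algebraMap k S) * bC (f ∘ β))) i j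
  rw [Matrix.sub_apply, Matrix.smul_apply, ← h9]
  congr 1

lemma map_mulA {l m n : Type*} [Fintype m] (f : R →ₐ[k] S) (L : Matrix l m R)
    (M : Matrix m n R) : (L * M).map f = L.map f * M.map f :=
  Matrix.map_mul (f := (f : R →+* S)) (L := L) (M := M)

lemma jn_map (f : R →ₐ[k] S) :
    (JN.map (algebraMap k R)).map f = JN.map (algebraMap k S) := by
  ext i j
  exact f.commutes _

lemma bGam_map (f : R →ₐ[k] S) (β : BI b r d → R) :
    (bGam ε JN β).map f = bGam ε JN (f ∘ β) := by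
  have h1 : (bA ε JN (β ∘ Sum.swap)).map f = bA ε JN ((f ∘ β) ∘ Sum.swap) := bA_map f _
  have h2 : (bA ε JN β).map f = bA ε JN (f ∘ β) := bA_map f _
  have h3 : ((bC β)ᵀ * JN.map (algebraMap k R) * bC (β ∘ Sum.swap)).map f =
      (bC (f ∘ β))ᵀ * JN.map (algebraMap k S) * bC ((f ∘ β) ∘ Sum.swap) := by
    have h := Matrix.map_mul (f := (f : R →+* S)) (L := (bC β)ᵀ * JN.map (algebraMap k R))
      (M := bC (β ∘ Sum.swap))
    have h5 := Matrix.map_mul (f := (f : R →+* S)) (L := (bC β)ᵀ)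
      (M := JN.map (algebraMap k R))
    rw [h5] at h
    have h8 : (JN.map (algebraMap k R)).map (f : R →+* S) = JN.map (algebraMap k S) := jn_map f
    rw [h8] at h
    exact h
  ext i j
  show f ((bA ε JN (β ∘ Sum.swap) + algebraMap k R ε • (bA ε JN β)ᵀ +
    (bC β)ᵀ * JN.map (algebraMap k R) * bC (β ∘ Sum.swap)) i j) =
    (bA ε JN ((f ∘ β) ∘ Sum.swap) + algebraMap k S ε • (bA ε JN (f ∘ β))ᵀ +
    (bC (f ∘ β))ᵀ * JN.map (algebraMap k S) * bC ((f ∘ β) ∘ Sum.swap)) i j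
  rw [← h1, ← h2, ← h3]
  simp only [Matrix.add_apply, Matrix.smul_apply, Matrix.transpose_apply, Matrix.map_apply, map_add, smul_eq_mul, map_mul,
    AlgHom.commutes]

lemma bDel_map (f : R →ₐ[k] S) (β : BI b r d → R) :
    (bDel β).map f = bDel (f ∘ β) := by
  ext i j
  show f (bC β i j - bC (β ∘ Sum.swap) i j) = _
  rw [map_sub]
  rfl

lemma bG_map (f : R →ₐ[k] S) (β : BI b r d → R) :
    (bG ε JN β).map f = bG ε JN (f ∘ β) := by
  have hdet : f (bGam ε JN β).det = (bGam ε JN (f ∘ β)).det := by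
    rw [← bGam_map f β]
    exact (f : R →+* S).map_det _
  have hadj : ((bGam ε JN β).adjugate).map f = (bGam ε JN (f ∘ β)).adjugate := by
    rw [← bGam_map f β]
    exact (f : R →+* S).map_adjugate _
  have h3 : (bDel β * (bGam ε JN β).adjugate * (bDel β)ᵀ * JN.map (algebraMap k R)).map f =
      bDel (f ∘ β) * (bGam ε JN (f ∘ β)).adjugate * (bDel (f ∘ β))ᵀ *
        JN.map (algebraMap k S) := by
    have h10 : ((bDel β)ᵀ).map f = (bDel (f ∘ β))ᵀ := by
      rw [← bDel_map f β]; rfl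
    rw [map_mulA, map_mulA, map_mulA, jn_map, bDel_map, h10, hadj]
  ext i j
  show f (((bGam ε JN β).det • (1 : Matrix (Fin r ⊕ Fin r) (Fin r ⊕ Fin r) R) +
    bDel β * (bGam ε JN β).adjugate * (bDel β)ᵀ * JN.map (algebraMap k R)) i j) =
    ((bGam ε JN (f ∘ β)).det • (1 : Matrix (Fin r ⊕ Fin r) (Fin r ⊕ Fin r) S) +
    bDel (f ∘ β) * (bGam ε JN (f ∘ β)).adjugate * (bDel (f ∘ β))ᵀ *
      JN.map (algebraMap k S)) i j
  rw [← h3, ← hdet]
  simp only [Matrix.add_apply, Matrix.smul_apply, Matrix.map_apply, map_add, smul_eq_mul, map_mul]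
  congr 1
  by_cases hij : i = j
  · subst hij; simp
  · simp [hij]

/-- evaluation at a point -/
lemma bGam_eval (ε : k) (JN : Matrix (Fin r ⊕ Fin r) (Fin r ⊕ Fin r) k) (x : BI b r d → k) :
    (bGam ε JN (X : BI b r d → MvPolynomial (BI b r d) k)).map (MvPolynomial.eval x) =
      bGam ε JN x := by
  have h := bGam_map (ε := ε) (JN := JN) (MvPolynomial.aeval x : MvPolynomial (BI b r d) k →ₐ[k] k)
    (X : BI b r d → MvPolynomial (BI b r d) k)
  have h1 : ((MvPolynomial.aeval x : MvPolynomial (BI b r d) k →ₐ[k] k) ∘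
      (X : BI b r d → MvPolynomial (BI b r d) k)) = x := by
    funext p
    simp
  rw [h1] at h
  rw [← h]
  ext i j
  simp

/-- evaluation at a point -/
lemma bG_eval (ε : k) (JN : Matrix (Fin r ⊕ Fin r) (Fin r ⊕ Fin r) k) (x : BI b r d → k) :
    (bG ε JN (X : BI b r d → MvPolynomial (BI b r d) k)).map (MvPolynomial.eval x) =
      bG ε JN x := by
  have h := bG_map (ε := ε) (JN := JN) (MvPolynomial.aeval x : MvPolynomial (BI b r d) k →ₐ[k] k)
    (X : BI b r d → MvPolynomial (BI b r d) k)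
  have h1 : ((MvPolynomial.aeval x : MvPolynomial (BI b r d) k →ₐ[k] k) ∘
      (X : BI b r d → MvPolynomial (BI b r d) k)) = x := by
    funext p
    simp
  rw [h1] at h
  rw [← h]
  ext i j
  simp

end Base

end Pool.Agent.Helper97.CG
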