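import Pool.Agent.Helper97.CG.Skw

/-!
# Matrix lemmas for the row W4
-/

namespace Pool.Agent.Helper97.CG

open MvPolynomial Matrix Pool.Agent.Helper14.RG

universe u

section Half

variable {k : Type u} [Field k] {r : ℕ} {ε : k}

lemma JR_mul_inv {Jr : Matrix (Fin r) (Fin r) k} (h : Jr.det ≠ 0) : JR Jr * JR Jr⁻¹ = 1 := by
  have h1 : Jr * Jr⁻¹ = 1 := mul_nonsing_inv _ (isUnit_iff_ne_zero.2 h)
  rw [JR, JR, fromBlocks_multiply, h1]
  simp

lemma JR_isForm {Jr : Matrix (Fin r) (Fin r) k} (h : IsForm ε Jr) : IsForm ε (JR Jr) := by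
  refine ⟨h.eps, ?_, ?_⟩
  · rw [JR, fromBlocks_transpose, h.symm, fromBlocks_smul, transpose_zero, smul_zero]
  · intro h0
    have h1 := congrArg Matrix.det (JR_mul_inv h.det_ne)
    rw [det_mul, h0, zero_mul, det_one] at h1
    exact zero_ne_one h1

lemma HE_det (hε : ε * ε = 1) : (HE r ε).det ≠ 0 := by
  have h : HE r ε * fromBlocks 0 (ε • (1 : Matrix (Fin r) (Fin r) k)) 1 0 = 1 := by
    rw [HE, fromBlocks_multiply]
    simp [smul_smul, hε]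
  intro h0
  have h1 := congrArg Matrix.det h
  rw [det_mul, h0, zero_mul, det_one] at h1
  exact zero_ne_one h1

/-- the relation between the two half spaces -/
lemma half_rel {Z Zm : Matrix (Fin r ⊕ Fin r) (Fin r) k} (h : Zᵀ * HE r ε * Zm = 0)
    (hZ : (toRows₁ Z).det ≠ 0) :
    toRows₂ Zm = -(ε • ((toRows₂ Z * (toRows₁ Z)⁻¹)ᵀ * toRows₁ Zm)) := by
  have h1 : (toRows₁ Z)ᵀ * toRows₂ Zm + ε • ((toRows₂ Z)ᵀ * toRows₁ Zm) = 0 := by
    have h2 : Zᵀ * HE r ε * Zm = (toRows₁ Z)ᵀ * toRows₂ Zm + ε • ((toRows₂ Z)ᵀ * toRows₁ Zm) := by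
      conv_lhs => rw [← fromRows_toRows Z, ← fromRows_toRows Zm]
      rw [Matrix.mul_assoc, HE, fromBlocks_mul_fromRows, transpose_fromRows, fromCols_mul_fromRows]
      simp
    rw [← h2, h]
  have h3 : ((toRows₁ Z)ᵀ)⁻¹ * (toRows₁ Z)ᵀ = 1 :=
    nonsing_inv_mul _ (isUnit_iff_ne_zero.2 (by rwa [det_transpose]))
  have h4 : (toRows₁ Z)ᵀ * toRows₂ Zm = -(ε • ((toRows₂ Z)ᵀ * toRows₁ Zm)) :=
    eq_neg_of_add_eq_zero_left h1
  calc toRows₂ Zm = ((toRows₁ Z)ᵀ)⁻¹ * ((toRows₁ Z)ᵀ * toRows₂ Zm) := by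
        rw [← Matrix.mul_assoc, h3, Matrix.one_mul]
    _ = _ := by
        rw [h4, Matrix.mul_neg, Matrix.mul_smul, transpose_mul, transpose_nonsing_inv,
          Matrix.mul_assoc]

lemma half_rel' {Z Zm : Matrix (Fin r ⊕ Fin r) (Fin r) k} (h : Zᵀ * HE r ε * Zm = 0)
    (hZ : (toRows₁ Z).det ≠ 0) (hZm : (toRows₁ Zm).det ≠ 0) :
    toRows₂ Zm * (toRows₁ Zm)⁻¹ = -(ε • (toRows₂ Z * (toRows₁ Z)⁻¹)ᵀ) := by
  rw [half_rel h hZ, Matrix.neg_mul, Matrix.smul_mul, Matrix.mul_assoc,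
    mul_nonsing_inv _ (isUnit_iff_ne_zero.2 hZm), Matrix.mul_one]

lemma half_inv {Z Zm : Matrix (Fin r ⊕ Fin r) (Fin r) k} (h : Zᵀ * HE r ε * Zm = 0)
    (hZ : (toRows₁ Z).det ≠ 0) (hinj : ∀ v : Fin r → k, Zm *ᵥ v = 0 → v = 0) :
    (toRows₁ Zm).det ≠ 0 := by
  intro h0
  obtain ⟨v, hv, hv0⟩ := exists_mulVec_eq_zero_iff.2 h0
  apply hv
  apply hinj
  rw [← fromRows_toRows Zm, fromRows_mulVec, hv0, half_rel h hZ, neg_mulVec, smul_mulVec,
    ← mulVec_mulVec, hv0]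
  simp only [mulVec_zero, smul_zero, neg_zero]
  funext i
  rcases i with i | i <;> rfl

lemma toRows₁_mul (Z : Matrix (Fin r ⊕ Fin r) (Fin r) k) (κ : Matrix (Fin r) (Fin r) k) :
    toRows₁ (Z * κ) = toRows₁ Z * κ := rfl

lemma toRows₂_mul (Z : Matrix (Fin r ⊕ Fin r) (Fin r) k) (κ : Matrix (Fin r) (Fin r) k) :
    toRows₂ (Z * κ) = toRows₂ Z * κ := rfl

lemma half_mul (Z : Matrix (Fin r ⊕ Fin r) (Fin r) k) {κ : Matrix (Fin r) (Fin r) k}
    (hκ : κ.det ≠ 0) : toRows₂ (Z * κ) * (toRows₁ (Z * κ))⁻¹ = toRows₂ Z * (toRows₁ Z)⁻¹ := by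
  rw [toRows₁_mul, toRows₂_mul, Matrix.mul_inv_rev, ← Matrix.mul_assoc, Matrix.mul_assoc _ κ,
    mul_nonsing_inv _ (isUnit_iff_ne_zero.2 hκ), Matrix.mul_one]

/-- `[1; 1]` -/
def i1 (r : ℕ) (k : Type*) [Field k] : Matrix (Fin r ⊕ Fin r) (Fin r) k := fromRows 1 1
/-- `[1; -1]` -/
def i2 (r : ℕ) (k : Type*) [Field k] : Matrix (Fin r ⊕ Fin r) (Fin r) k := fromRows 1 (-1)
/-- the swap -/
def sg (r : ℕ) (k : Type*) [Field k] : Matrix (Fin r ⊕ Fin r) (Fin r ⊕ Fin r) k :=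
  fromBlocks 0 1 1 0

lemma sg_sq : sg r k * sg r k = 1 := by
  rw [sg, fromBlocks_multiply]
  simp

lemma i1_inj (v : Fin r → k) (h : i1 r k *ᵥ v = 0) : v = 0 := by
  have h1 : (toRows₁ (i1 r k)) *ᵥ v = 0 := by
    funext i
    exact congrFun h (Sum.inl i)
  have h2 : toRows₁ (i1 r k) = 1 := toRows₁_fromRows _ _
  rw [h2, one_mulVec] at h1
  exact h1

lemma i2_inj (v : Fin r → k) (h : i2 r k *ᵥ v = 0) : v = 0 := by
  have h1 : (toRows₁ (i2 r k)) *ᵥ v = 0 := by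
    funext i
    exact congrFun h (Sum.inl i)
  have h2 : toRows₁ (i2 r k) = 1 := toRows₁_fromRows _ _
  rw [h2, one_mulVec] at h1
  exact h1

lemma i1_JR_i2 (Jr : Matrix (Fin r) (Fin r) k) : (i1 r k)ᵀ * JR Jr * i2 r k = 0 := by
  rw [i1, i2, JR, Matrix.mul_assoc, fromBlocks_mul_fromRows, transpose_fromRows,
    fromCols_mul_fromRows]
  simp

/-- commuting with the swap -/
lemma sg_comm {h : Matrix (Fin r ⊕ Fin r) (Fin r ⊕ Fin r) k} (hs : sg r k * h = h * sg r k) :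
    (∃ κ : Matrix (Fin r) (Fin r) k, h * i1 r k = i1 r k * κ) ∧
      (∃ κ : Matrix (Fin r) (Fin r) k, h * i2 r k = i2 r k * κ) := by
  have h0 := hs
  rw [sg, ← fromBlocks_toBlocks h, fromBlocks_multiply, fromBlocks_multiply] at h0
  simp only [Matrix.zero_mul, Matrix.one_mul, zero_add, Matrix.mul_zero, Matrix.mul_one,
    add_zero] at h0
  obtain ⟨e1, e2, e3, e4⟩ := fromBlocks_inj.1 h0
  constructor
  · refine ⟨h.toBlocks₁₁ + h.toBlocks₁₂, ?_⟩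
    conv_lhs => rw [← fromBlocks_toBlocks h]
    rw [i1, fromBlocks_mul_fromRows, fromRows_mul]
    simp only [Matrix.mul_one, Matrix.one_mul]
    rw [e1, e2, add_comm h.toBlocks₁₂]
  · refine ⟨h.toBlocks₁₁ - h.toBlocks₁₂, ?_⟩
    conv_lhs => rw [← fromBlocks_toBlocks h]
    rw [i2, fromBlocks_mul_fromRows, fromRows_mul]
    simp only [Matrix.mul_one, Matrix.one_mul, Matrix.mul_neg, Matrix.neg_mul]
    rw [e1, e2, ← sub_eq_add_neg, ← sub_eq_add_neg, neg_sub]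

lemma sg_anticomm {h : Matrix (Fin r ⊕ Fin r) (Fin r ⊕ Fin r) k}
    (hs : sg r k * h = -(h * sg r k)) :
    (∃ κ : Matrix (Fin r) (Fin r) k, h * i1 r k = i2 r k * κ) ∧
      (∃ κ : Matrix (Fin r) (Fin r) k, h * i2 r k = i1 r k * κ) := by
  have h0 := hs
  rw [sg, ← fromBlocks_toBlocks h, fromBlocks_multiply, fromBlocks_multiply, fromBlocks_neg] at h0
  simp only [Matrix.zero_mul, Matrix.one_mul, zero_add, Matrix.mul_zero, Matrix.mul_one,
    add_zero] at h0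
  obtain ⟨e1, e2, e3, e4⟩ := fromBlocks_inj.1 h0
  constructor
  · refine ⟨h.toBlocks₁₁ + h.toBlocks₁₂, ?_⟩
    conv_lhs => rw [← fromBlocks_toBlocks h]
    rw [i1, i2, fromBlocks_mul_fromRows, fromRows_mul]
    simp only [Matrix.mul_one, Matrix.one_mul, Matrix.neg_mul]
    rw [e1, e2, neg_add, add_comm (-h.toBlocks₁₂)]
  · refine ⟨h.toBlocks₁₁ - h.toBlocks₁₂, ?_⟩
    conv_lhs => rw [← fromBlocks_toBlocks h]
    rw [i1, i2, fromBlocks_mul_fromRows, fromRows_mul]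
    simp only [Matrix.mul_one, Matrix.one_mul, Matrix.mul_neg]
    rw [e1, e2, neg_neg, ← sub_eq_add_neg, sub_eq_add_neg, add_comm]

lemma det_of_inj {κ : Matrix (Fin r) (Fin r) k} {h : Matrix (Fin r ⊕ Fin r) (Fin r ⊕ Fin r) k}
    {i j : Matrix (Fin r ⊕ Fin r) (Fin r) k} (hh : h.det ≠ 0)
    (hi : ∀ v, i *ᵥ v = 0 → v = 0) (he : h * i = j * κ) : κ.det ≠ 0 := by
  intro h0
  obtain ⟨v, hv, hv0⟩ := exists_mulVec_eq_zero_iff.2 h0
  apply hv
  apply hi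
  have h1 : h *ᵥ (i *ᵥ v) = 0 := by
    rw [mulVec_mulVec, he, ← mulVec_mulVec, hv0, mulVec_zero]
  by_contra hne
  exact hh (exists_mulVec_eq_zero_iff.1 ⟨_, hne, h1⟩)

/-- an isometry of `JR Jr` which preserves the first eigenspace commutes with the swap -/
lemma sg_comm_of [CharZero k] {Jr : Matrix (Fin r) (Fin r) k} (hJ : Jr.det ≠ 0)
    {h : Matrix (Fin r ⊕ Fin r) (Fin r ⊕ Fin r) k} (hh : hᵀ * JR Jr * h = JR Jr)
    {κ : Matrix (Fin r) (Fin r) k} (hκ : κ.det ≠ 0) (he : h * i1 r k = i1 r k * κ) :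
    sg r k * h = h * sg r k := by
  have h1 : κᵀ * ((i1 r k)ᵀ * JR Jr * (h * i2 r k)) = 0 := by
    have h2 : κᵀ * ((i1 r k)ᵀ * JR Jr * (h * i2 r k)) =
        (i1 r k * κ)ᵀ * JR Jr * (h * i2 r k) := by
      rw [transpose_mul]; simp only [Matrix.mul_assoc]
    rw [h2, ← he, transpose_mul]
    have h3 : (i1 r k)ᵀ * hᵀ * JR Jr * (h * i2 r k) =
        (i1 r k)ᵀ * (hᵀ * JR Jr * h) * i2 r k := by simp only [Matrix.mul_assoc]
    rw [h3, hh, i1_JR_i2]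
  have h4 : (i1 r k)ᵀ * JR Jr * (h * i2 r k) = 0 := by
    have h5 : (κᵀ)⁻¹ * κᵀ = 1 := nonsing_inv_mul _ (isUnit_iff_ne_zero.2 (by rwa [det_transpose]))
    calc (i1 r k)ᵀ * JR Jr * (h * i2 r k)
        = (κᵀ)⁻¹ * (κᵀ * ((i1 r k)ᵀ * JR Jr * (h * i2 r k))) := by
          rw [← Matrix.mul_assoc (κᵀ)⁻¹, h5, Matrix.one_mul]
      _ = 0 := by rw [h1, Matrix.mul_zero]
  have e1 : h * i2 r k = fromRows (h.toBlocks₁₁ - h.toBlocks₁₂) (h.toBlocks₂₁ - h.toBlocks₂₂) := by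
    conv_lhs => rw [← fromBlocks_toBlocks h]
    rw [i2, fromBlocks_mul_fromRows]
    simp only [Matrix.mul_one, Matrix.mul_neg, ← sub_eq_add_neg]
  have e2 : h * i1 r k = fromRows (h.toBlocks₁₁ + h.toBlocks₁₂) (h.toBlocks₂₁ + h.toBlocks₂₂) := by
    conv_lhs => rw [← fromBlocks_toBlocks h]
    rw [i1, fromBlocks_mul_fromRows]
    simp only [Matrix.mul_one]
  rw [e2, i1, fromRows_mul] at he
  simp only [Matrix.one_mul] at he
  obtain ⟨f1, f2⟩ := fromRows_inj he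
  rw [e1] at h4
  have e3 : (i1 r k)ᵀ * JR Jr * fromRows (h.toBlocks₁₁ - h.toBlocks₁₂)
      (h.toBlocks₂₁ - h.toBlocks₂₂) = Jr * ((h.toBlocks₁₁ - h.toBlocks₁₂) +
        (h.toBlocks₂₁ - h.toBlocks₂₂)) := by
    rw [i1, JR, Matrix.mul_assoc, fromBlocks_mul_fromRows, transpose_fromRows,
      fromCols_mul_fromRows]
    simp [Matrix.mul_add, add_comm]
  rw [e3] at h4
  have f3 : (h.toBlocks₁₁ - h.toBlocks₁₂) + (h.toBlocks₂₁ - h.toBlocks₂₂) = 0 := by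
    calc _ = Jr⁻¹ * (Jr * ((h.toBlocks₁₁ - h.toBlocks₁₂) +
        (h.toBlocks₂₁ - h.toBlocks₂₂))) := by
          rw [← Matrix.mul_assoc, nonsing_inv_mul _ (isUnit_iff_ne_zero.2 hJ), Matrix.one_mul]
      _ = 0 := by rw [h4, Matrix.mul_zero]
  have f4 : h.toBlocks₁₁ + h.toBlocks₁₂ = h.toBlocks₂₁ + h.toBlocks₂₂ := by rw [f1, f2]
  have g1 : h.toBlocks₁₁ = h.toBlocks₂₂ := by
    ext i j
    have a1 := congrFun (congrFun f3 i) j
    have a2 := congrFun (congrFun f4 i) j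
    simp only [Matrix.add_apply, Matrix.sub_apply, Matrix.zero_apply] at a1 a2
    have a3 : (2 : k) * (h.toBlocks₁₁ i j - h.toBlocks₂₂ i j) = 0 := by
      linear_combination a1 + a2
    exact sub_eq_zero.1 ((mul_eq_zero.1 a3).resolve_left two_ne_zero)
  have g2 : h.toBlocks₁₂ = h.toBlocks₂₁ := by
    rw [g1, add_comm] at f4
    exact add_right_cancel f4
  rw [sg, ← fromBlocks_toBlocks h, fromBlocks_multiply, fromBlocks_multiply]
  simp only [Matrix.zero_mul, Matrix.one_mul, zero_add, Matrix.mul_zero, Matrix.mul_one,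
    add_zero]
  rw [g1, g2]

end Half

section Cmm

variable {k : Type u} [Field k] [CharZero k] {b r : ℕ} {I : k}

omit [CharZero k] in
lemma eq_zero_of_smul {m n : Type*} {M : Matrix m n k} {c c' : k} (h : c • M = c' • M)
    (hc : c ≠ c') : M = 0 := by
  have h1 : (c - c') • M = 0 := by rw [sub_smul, h, sub_self]
  exact (smul_eq_zero.1 h1).resolve_left (sub_ne_zero.2 hc)

lemma eq_zero_of_sg {m : Type*} {M : Matrix m (Fin r ⊕ Fin r) k} {c : k}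
    (h : c • M = M * sg r k) (hc : c * c = -1) : M = 0 := by
  have h1 : (c * c) • M = (1 : k) • M := by
    rw [← smul_smul, h, ← Matrix.smul_mul, h, Matrix.mul_assoc, sg_sq, Matrix.mul_one, one_smul]
  refine eq_zero_of_smul h1 ?_
  rw [hc]
  intro h2
  have h3 : (2 : k) = 0 := by linear_combination -h2
  exact two_ne_zero h3

lemma eq_zero_of_sg' {m : Type*} {M : Matrix (Fin r ⊕ Fin r) m k} {c : k}
    (h : sg r k * M = c • M) (hc : c * c = -1) : M = 0 := by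
  have h1 : (c * c) • M = (1 : k) • M := by
    rw [← smul_smul, ← h, ← Matrix.mul_smul, ← h, ← Matrix.mul_assoc, sg_sq, Matrix.one_mul,
      one_smul]
  refine eq_zero_of_smul h1 ?_
  rw [hc]
  intro h2
  have h3 : (2 : k) = 0 := by linear_combination -h2
  exact two_ne_zero h3

/-- the element `s` of the row W4 -/
def sW4 (b r : ℕ) (I : k) : Matrix (Fin b ⊕ (Fin b ⊕ (Fin r ⊕ Fin r)))
    (Fin b ⊕ (Fin b ⊕ (Fin r ⊕ Fin r))) k :=
  dg (I • (1 : Matrix (Fin b) (Fin b) k)) (-I • (1 : Matrix (Fin b) (Fin b) k)) (sg r k)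

lemma I_ne (hI : I * I = -1) : I ≠ -I := by
  intro h
  have h1 : (2 : k) * I = 0 := by linear_combination h
  rcases mul_eq_zero.1 h1 with h2 | h2
  · exact two_ne_zero h2
  · rw [h2, mul_zero] at hI
    exact one_ne_zero (neg_eq_zero.1 hI.symm)

lemma sW4_comm (hI : I * I = -1) {h : Matrix (Fin b ⊕ (Fin b ⊕ (Fin r ⊕ Fin r)))
    (Fin b ⊕ (Fin b ⊕ (Fin r ⊕ Fin r))) k} (hs : sW4 b r I * h = h * sW4 b r I) :
    h = dg (b11 h) (b22 h) (b33 h) ∧ sg r k * b33 h = b33 h * sg r k := by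
  have h0 := hs
  rw [sW4, ← mk3_eta h, dg, mk3_mul, mk3_mul] at h0
  simp only [Matrix.zero_mul, Matrix.mul_zero, zero_add, add_zero, Matrix.smul_mul,
    Matrix.mul_smul, Matrix.one_mul, Matrix.mul_one] at h0
  obtain ⟨⟨e11, e12, e13⟩, ⟨e21, e22, e23⟩, ⟨e31, e32, e33⟩⟩ := mk3_inj h0
  have hI' : -I * -I = -1 := by rw [neg_mul_neg, hI]
  have z12 := eq_zero_of_smul e12 (I_ne hI)
  have z21 := eq_zero_of_smul e21 (I_ne hI).symm
  have z13 := eq_zero_of_sg e13 hI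
  have z23 := eq_zero_of_sg e23 hI'
  have z31 := eq_zero_of_sg' e31 hI
  have z32 := eq_zero_of_sg' e32 hI'
  refine ⟨?_, e33⟩
  conv_lhs => rw [← mk3_eta h]
  rw [z12, z21, z13, z23, z31, z32, dg]

lemma sW4_anticomm (hI : I * I = -1) {h : Matrix (Fin b ⊕ (Fin b ⊕ (Fin r ⊕ Fin r)))
    (Fin b ⊕ (Fin b ⊕ (Fin r ⊕ Fin r))) k} (hs : sW4 b r I * h = -(h * sW4 b r I)) :
    h = mk3 0 (b12 h) 0 (b21 h) 0 0 0 0 (b33 h) ∧ sg r k * b33 h = -(b33 h * sg r k) := by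
  have h0 := hs
  rw [sW4, ← mk3_eta h, dg, mk3_mul, mk3_mul, mk3_neg] at h0
  simp only [Matrix.zero_mul, Matrix.mul_zero, zero_add, add_zero, Matrix.smul_mul,
    Matrix.mul_smul, Matrix.one_mul, Matrix.mul_one] at h0
  obtain ⟨⟨e11, e12, e13⟩, ⟨e21, e22, e23⟩, ⟨e31, e32, e33⟩⟩ := mk3_inj h0
  have hI' : -I * -I = -1 := by rw [neg_mul_neg, hI]
  have z11 : b11 h = 0 := by
    rw [← neg_smul] at e11
    exact eq_zero_of_smul e11 (I_ne hI)
  have z22 : b22 h = 0 := by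
    rw [← neg_smul, neg_neg] at e22
    exact eq_zero_of_smul e22 (I_ne hI).symm
  have z13 : b13 h = 0 := by
    have : (-I) • b13 h = b13 h * sg r k := by rw [neg_smul, e13, neg_neg]
    exact eq_zero_of_sg this hI'
  have z23 : b23 h = 0 := by
    have : I • b23 h = b23 h * sg r k := by
      rw [← neg_neg (b23 h * sg r k), ← e23, neg_smul, neg_neg]
    exact eq_zero_of_sg this hI
  have z31 : b31 h = 0 := by
    have : sg r k * b31 h = (-I) • b31 h := by rw [e31, neg_smul]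
    exact eq_zero_of_sg' this hI'
  have z32 : b32 h = 0 := by
    have : sg r k * b32 h = I • b32 h := by rw [e32, neg_smul, neg_neg]
    exact eq_zero_of_sg' this hI
  refine ⟨?_, e33⟩
  conv_lhs => rw [← mk3_eta h]
  rw [z11, z22, z13, z23, z31, z32]

omit [CharZero k] in
lemma sW4_comm_dg {h1 h2 : Matrix (Fin b) (Fin b) k}
    {h3 : Matrix (Fin r ⊕ Fin r) (Fin r ⊕ Fin r) k} (hs : sg r k * h3 = h3 * sg r k) :
    sW4 b r I * dg h1 h2 h3 = dg h1 h2 h3 * sW4 b r I := by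
  rw [sW4, dg, dg, mk3_mul, mk3_mul]
  simp only [Matrix.zero_mul, Matrix.mul_zero, zero_add, add_zero, Matrix.smul_mul,
    Matrix.mul_smul, Matrix.one_mul, Matrix.mul_one, hs, smul_zero]

end Cmm

end Pool.Agent.Helper97.CG
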