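import Pool.Agent.Helper97.CG.W4a

/-!
# Row W4: the half spaces `Z`, `Zm`
-/

namespace Pool.Agent.Helper97.CG

open MvPolynomial Matrix Pool.Agent.Helper14.RG

universe u

/-- the output of `ST_HYP` -/
structure HypData (k : Type u) [Field k] (b r : ℕ) (ε : k) (d : Bool)
    (Jr : Matrix (Fin r) (Fin r) k) where
  m : Matrix (Fin r ⊕ Fin r) (Fin r ⊕ Fin r) (MvPolynomial (BI b r d) k)
  D : MvPolynomial (BI b r d) k
  hD : D ≠ 0
  h : mᵀ * (JR Jr).map (algebraMap k (MvPolynomial (BI b r d) k)) *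
      bG ε (JR Jr) (X : BI b r d → MvPolynomial (BI b r d) k) *
      m.map (rename (Sum.swap : BI b r d → BI b r d)) = D • HE r (algebraMap k _ ε)

section

variable {k : Type u} [Field k] {b r : ℕ} {ε : k} {d : Bool} {Jr : Matrix (Fin r) (Fin r) k}

lemma isom_det_ne {n : Type*} [Fintype n] [DecidableEq n] {J x : Matrix n n k} (hJ : J.det ≠ 0)
    (h : xᵀ * J * x = J) : x.det ≠ 0 := by
  intro h0
  have h1 := congrArg Matrix.det h
  rw [det_mul, h0, mul_zero] at h1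
  exact hJ h1.symm

namespace HypData

variable (H : HypData k b r ε d Jr)

/-- `m` at a point -/
noncomputable def mb (β : BI b r d → k) : Matrix (Fin r ⊕ Fin r) (Fin r ⊕ Fin r) k :=
  H.m.map (MvPolynomial.eval β)

lemma ev (β : BI b r d → k) : (H.mb β)ᵀ * JR Jr * bG ε (JR Jr) β * H.mb (β ∘ Sum.swap) =
    (MvPolynomial.eval β H.D) • HE r ε := by
  have h := congrArg (fun M => M.map (MvPolynomial.eval β)) H.h
  simp only [Matrix.map_mul] at h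
  have e1 : (H.m)ᵀ.map (MvPolynomial.eval β) = (H.mb β)ᵀ := rfl
  have e2 : ((JR Jr).map (algebraMap k (MvPolynomial (BI b r d) k))).map
      (MvPolynomial.eval β) = JR Jr := by
    ext i j
    simp [MvPolynomial.algebraMap_eq]
  have e3 : (H.m.map (rename (Sum.swap : BI b r d → BI b r d))).map (MvPolynomial.eval β) =
      H.mb (β ∘ Sum.swap) := by
    ext i j
    simp [mb, eval_rename]
  have e4 : (H.D • HE r (algebraMap k (MvPolynomial (BI b r d) k) ε)).map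
      (MvPolynomial.eval β) = (MvPolynomial.eval β H.D) • HE r ε := by
    ext i j
    rcases i with i | i <;> rcases j with j | j
    · simp [HE]
    · by_cases hij : i = j
      · subst hij; simp [HE]
      · simp [HE, hij]
    · by_cases hij : i = j
      · subst hij; simp [HE, MvPolynomial.algebraMap_eq]
      · simp [HE, hij]
    · simp [HE]
  rw [e1, e2, bG_eval, e3, e4] at h
  exact h

lemma det_mb (hε : ε * ε = 1) {β : BI b r d → k} (h : MvPolynomial.eval β H.D ≠ 0) :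
    (H.mb β).det ≠ 0 ∧ (H.mb (β ∘ Sum.swap)).det ≠ 0 := by
  have h1 := congrArg Matrix.det (H.ev β)
  rw [det_mul, det_mul, det_mul, det_transpose, det_smul] at h1
  have h2 : MvPolynomial.eval β H.D ^ Fintype.card (Fin r ⊕ Fin r) * (HE r ε).det ≠ 0 :=
    mul_ne_zero (pow_ne_zero _ h) (HE_det hε)
  rw [← h1] at h2
  exact ⟨left_ne_zero_of_mul (left_ne_zero_of_mul (left_ne_zero_of_mul h2)),
    right_ne_zero_of_mul h2⟩

/-- first half space -/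
noncomputable def Z
    (y : Matrix (Fin b ⊕ (Fin b ⊕ (Fin r ⊕ Fin r))) (Fin b ⊕ (Fin b ⊕ (Fin r ⊕ Fin r))) k) :
    Matrix (Fin r ⊕ Fin r) (Fin r) k :=
  (H.mb (lBeta d (JR Jr) y)).adjugate * (lY y * i1 r k)

/-- second half space -/
noncomputable def Zm
    (y : Matrix (Fin b ⊕ (Fin b ⊕ (Fin r ⊕ Fin r))) (Fin b ⊕ (Fin b ⊕ (Fin r ⊕ Fin r))) k) :
    Matrix (Fin r ⊕ Fin r) (Fin r) k :=
  (H.mb (lBeta d (JR Jr) y ∘ Sum.swap)).adjugate * (lY' y * i2 r k)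

lemma mb_Z (y : Matrix (Fin b ⊕ (Fin b ⊕ (Fin r ⊕ Fin r)))
    (Fin b ⊕ (Fin b ⊕ (Fin r ⊕ Fin r))) k) :
    H.mb (lBeta d (JR Jr) y) * H.Z y = (H.mb (lBeta d (JR Jr) y)).det • (lY y * i1 r k) := by
  rw [Z, ← Matrix.mul_assoc, mul_adjugate, Matrix.smul_mul, Matrix.one_mul]

lemma mb_Zm (y : Matrix (Fin b ⊕ (Fin b ⊕ (Fin r ⊕ Fin r)))
    (Fin b ⊕ (Fin b ⊕ (Fin r ⊕ Fin r))) k) :
    H.mb (lBeta d (JR Jr) y ∘ Sum.swap) * H.Zm y =
      (H.mb (lBeta d (JR Jr) y ∘ Sum.swap)).det • (lY' y * i2 r k) := by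
  rw [Zm, ← Matrix.mul_assoc, mul_adjugate, Matrix.smul_mul, Matrix.one_mul]

lemma Z_rel {y : Matrix (Fin b ⊕ (Fin b ⊕ (Fin r ⊕ Fin r)))
    (Fin b ⊕ (Fin b ⊕ (Fin r ⊕ Fin r))) k}
    (hY : (lY y)ᵀ * JR Jr * lY y = JR Jr)
    (hg : (bGam ε (JR Jr) (lBeta d (JR Jr) y)).det • lY y =
      bG ε (JR Jr) (lBeta d (JR Jr) y) * lY' y)
    (hE : MvPolynomial.eval (lBeta d (JR Jr) y) H.D ≠ 0) :
    (H.Z y)ᵀ * HE r ε * H.Zm y = 0 := by
  set β := lBeta d (JR Jr) y with hβ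
  have h1 : (MvPolynomial.eval β H.D) • ((H.Z y)ᵀ * HE r ε * H.Zm y) = 0 := by
    calc (MvPolynomial.eval β H.D) • ((H.Z y)ᵀ * HE r ε * H.Zm y)
        = (H.Z y)ᵀ * ((MvPolynomial.eval β H.D) • HE r ε) * H.Zm y := by
          rw [Matrix.mul_smul, Matrix.smul_mul]
      _ = (H.mb β * H.Z y)ᵀ * JR Jr * bG ε (JR Jr) β * (H.mb (β ∘ Sum.swap) * H.Zm y) := by
          rw [← H.ev β, transpose_mul]
          simp only [Matrix.mul_assoc]
      _ = ((H.mb β).det * (H.mb (β ∘ Sum.swap)).det) •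
          ((lY y * i1 r k)ᵀ * JR Jr * (bG ε (JR Jr) β * lY' y) * i2 r k) := by
          rw [hβ, H.mb_Z, H.mb_Zm, transpose_smul]
          simp only [Matrix.smul_mul, Matrix.mul_smul, smul_smul, Matrix.mul_assoc]
          rw [mul_comm]
      _ = 0 := by
          rw [← hg, transpose_mul]
          have h2 : (i1 r k)ᵀ * (lY y)ᵀ * JR Jr *
              ((bGam ε (JR Jr) β).det • lY y) * i2 r k =
              (bGam ε (JR Jr) β).det • ((i1 r k)ᵀ * ((lY y)ᵀ * JR Jr * lY y) * i2 r k) := by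
            simp only [Matrix.smul_mul, Matrix.mul_smul, Matrix.mul_assoc]
          rw [h2, hY, i1_JR_i2, smul_zero, smul_zero]
  exact (smul_eq_zero.1 h1).resolve_left hE

lemma Zm_inj (hJ : (JR Jr).det ≠ 0) {y : Matrix (Fin b ⊕ (Fin b ⊕ (Fin r ⊕ Fin r)))
    (Fin b ⊕ (Fin b ⊕ (Fin r ⊕ Fin r))) k} (hY : (lY' y)ᵀ * JR Jr * lY' y = JR Jr)
    (hm : (H.mb (lBeta d (JR Jr) y ∘ Sum.swap)).det ≠ 0) (v : Fin r → k)
    (h : H.Zm y *ᵥ v = 0) : v = 0 := by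
  apply i2_inj
  by_contra hne
  apply isom_det_ne hJ hY
  apply exists_mulVec_eq_zero_iff.1
  refine ⟨_, hne, ?_⟩
  have h1 : (H.mb (lBeta d (JR Jr) y ∘ Sum.swap)).det • ((lY' y * i2 r k) *ᵥ v) = 0 := by
    rw [← smul_mulVec, ← H.mb_Zm, ← mulVec_mulVec, h, mulVec_zero]
  rw [mulVec_mulVec]
  exact (smul_eq_zero.1 h1).resolve_left hm

/-- the open set of the chart -/
structure Good (y : Matrix (Fin b ⊕ (Fin b ⊕ (Fin r ⊕ Fin r)))
    (Fin b ⊕ (Fin b ⊕ (Fin r ⊕ Fin r))) k) : Prop where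
  a : (b11 y).det ≠ 0
  b : (b12 y).det ≠ 0
  c : MvPolynomial.eval (lBeta d (JR Jr) y) H.D ≠ 0
  c' : MvPolynomial.eval (lBeta d (JR Jr) y ∘ Sum.swap) H.D ≠ 0
  z : (toRows₁ (H.Z y)).det ≠ 0
  z' : (toRows₁ (H.Zm y)).det ≠ 0

/-- the coordinates -/
noncomputable def tt (y : Matrix (Fin b ⊕ (Fin b ⊕ (Fin r ⊕ Fin r)))
    (Fin b ⊕ (Fin b ⊕ (Fin r ⊕ Fin r))) k) : BI b r d ⊕ (Fin r × Fin r) → k :=
  Sum.elim (lBeta d (JR Jr) y) (fun p => (toRows₂ (H.Z y) * (toRows₁ (H.Z y))⁻¹) p.1 p.2)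

end HypData

/-- base coordinates from the blocks -/
def bet (d : Bool) (JN : Matrix (Fin r ⊕ Fin r) (Fin r ⊕ Fin r) k)
    (C C' : Matrix (Fin r ⊕ Fin r) (Fin b) k) (A A' : Matrix (Fin b) (Fin b) k) :
    BI b r d → k :=
  Sum.elim
    (Sum.elim (fun p => C p.1 p.2)
      (fun p => (A + (2⁻¹ : k) • (Cᵀ * JN * C)) p.1.1 p.1.2))
    (Sum.elim (fun p => C' p.1 p.2)
      (fun p => (A' + (2⁻¹ : k) • (C'ᵀ * JN * C')) p.1.1 p.1.2))

lemma lBeta_eq (JN : Matrix (Fin r ⊕ Fin r) (Fin r ⊕ Fin r) k)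
    (y : Matrix (Fin b ⊕ (Fin b ⊕ (Fin r ⊕ Fin r))) (Fin b ⊕ (Fin b ⊕ (Fin r ⊕ Fin r))) k) :
    lBeta d JN y = bet d JN (lC y) (lC' y) (lA y) (lA' y) := rfl

lemma bet_swap (JN : Matrix (Fin r ⊕ Fin r) (Fin r ⊕ Fin r) k)
    (C C' : Matrix (Fin r ⊕ Fin r) (Fin b) k) (A A' : Matrix (Fin b) (Fin b) k) :
    bet d JN C' C A' A = bet d JN C C' A A' ∘ Sum.swap := by
  funext p
  rcases p with p | p <;> rfl

variable [IsAlgClosed k] [CharZero k]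

set_option linter.unusedSectionVars false

namespace HypData

variable (H : HypData k b r ε d Jr)

/-- right multiplication by an element which commutes with `s` -/
lemma good_comm (hH : ST_W4H k) {I : k} (hI : I * I = -1)
    {y h : Matrix (Fin b ⊕ (Fin b ⊕ (Fin r ⊕ Fin r))) (Fin b ⊕ (Fin b ⊕ (Fin r ⊕ Fin r))) k}
    (hd : h.det ≠ 0) (hs : sW4 b r I * h = h * sW4 b r I) (hy : H.Good y) :
    H.Good (y * h) ∧ H.tt (y * h) = H.tt y := by
  obtain ⟨e1, e2⟩ := sW4_comm hI hs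
  rw [e1, det_dg] at hd
  have d1 := left_ne_zero_of_mul hd
  have d2 := left_ne_zero_of_mul (right_ne_zero_of_mul hd)
  have d3 := right_ne_zero_of_mul (right_ne_zero_of_mul hd)
  obtain ⟨⟨κ, hκ⟩, ⟨κ', hκ'⟩⟩ := sg_comm e2
  have f1 := det_of_inj d3 (i1_inj (r := r)) hκ
  have f2 := det_of_inj d3 (i2_inj (r := r)) hκ'
  rw [e1]
  obtain ⟨⟨g1, g2, g3, g4, g5, g6, g7, g8⟩, -⟩ := hH b r y (b11 h) (b22 h) (b33 h) d1 d2
  set y' := y * dg (b11 h) (b22 h) (b33 h)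
  have hβ : lBeta d (JR Jr) y' = lBeta d (JR Jr) y := by
    rw [lBeta_eq, lBeta_eq, g3, g4, g5, g6]
  have hZ : H.Z y' = H.Z y * κ := by
    rw [Z, Z, hβ, g7, Matrix.mul_assoc (lY y), hκ]
    simp only [Matrix.mul_assoc]
  have hZm : H.Zm y' = H.Zm y * κ' := by
    rw [Zm, Zm, hβ, g8, Matrix.mul_assoc (lY' y), hκ']
    simp only [Matrix.mul_assoc]
  refine ⟨⟨?_, ?_, ?_, ?_, ?_, ?_⟩, ?_⟩
  · rw [g1, det_mul]; exact mul_ne_zero hy.a d1
  · rw [g2, det_mul]; exact mul_ne_zero hy.b d2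
  · rw [hβ]; exact hy.c
  · rw [hβ]; exact hy.c'
  · rw [hZ, toRows₁_mul, det_mul]; exact mul_ne_zero hy.z f1
  · rw [hZm, toRows₁_mul, det_mul]; exact mul_ne_zero hy.z' f2
  · rw [tt, tt, hβ, hZ, half_mul _ f1]

/-- right multiplication by an element which anticommutes with `s` -/
lemma good_anticomm (hH : ST_W4H k) {I : k} (hI : I * I = -1)
    {y h : Matrix (Fin b ⊕ (Fin b ⊕ (Fin r ⊕ Fin r))) (Fin b ⊕ (Fin b ⊕ (Fin r ⊕ Fin r))) k}
    (hd : h.det ≠ 0) (hs : sW4 b r I * h = -(h * sW4 b r I)) (hy : H.Good y)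
    (hrel : (H.Z y)ᵀ * HE r ε * H.Zm y = 0) :
    H.Good (y * h) ∧ H.tt (y * h) = Sum.elim (lBeta d (JR Jr) y ∘ Sum.swap)
      (fun p => -(ε * H.tt y (Sum.inr (p.2, p.1)))) := by
  obtain ⟨e1, e2⟩ := sW4_anticomm hI hs
  have hd2 : (h * h).det ≠ 0 := by rw [det_mul]; exact mul_ne_zero hd hd
  have e3 : h * h = dg (b12 h * b21 h) (b21 h * b12 h) (b33 h * b33 h) := by
    conv_lhs => rw [e1]
    rw [mk3_mul, dg]
    simp
  rw [e3, det_dg, det_mul, det_mul, det_mul] at hd2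
  have d12 := left_ne_zero_of_mul (left_ne_zero_of_mul hd2)
  have d21 := right_ne_zero_of_mul (left_ne_zero_of_mul hd2)
  have d3 := left_ne_zero_of_mul (right_ne_zero_of_mul (right_ne_zero_of_mul hd2))
  obtain ⟨⟨κ, hκ⟩, ⟨κ', hκ'⟩⟩ := sg_anticomm e2
  have f1 := det_of_inj d3 (i1_inj (r := r)) hκ
  have f2 := det_of_inj d3 (i2_inj (r := r)) hκ'
  rw [e1]
  obtain ⟨-, ⟨g1, g2, g3, g4, g5, g6, g7, g8⟩⟩ := hH b r y (b21 h) (b12 h) (b33 h) d21 d12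
  set y' := y * mk3 0 (b12 h) 0 (b21 h) 0 0 0 0 (b33 h)
  have hβ : lBeta d (JR Jr) y' = lBeta d (JR Jr) y ∘ Sum.swap := by
    rw [lBeta_eq, lBeta_eq, g3, g4, g5, g6, bet_swap]
  have hβ' : (lBeta d (JR Jr) y ∘ Sum.swap) ∘ Sum.swap = lBeta d (JR Jr) y := by
    funext p
    show lBeta d (JR Jr) y p.swap.swap = _
    rw [Sum.swap_swap]
  have hZ : H.Z y' = H.Zm y * κ := by
    rw [Z, Zm, hβ, g7, Matrix.mul_assoc (lY' y), hκ]
    simp only [Matrix.mul_assoc]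
  have hZm : H.Zm y' = H.Z y * κ' := by
    rw [Z, Zm, hβ, hβ', g8, Matrix.mul_assoc (lY y), hκ']
    simp only [Matrix.mul_assoc]
  refine ⟨⟨?_, ?_, ?_, ?_, ?_, ?_⟩, ?_⟩
  · rw [g1, det_mul]; exact mul_ne_zero hy.b d21
  · rw [g2, det_mul]; exact mul_ne_zero hy.a d12
  · rw [hβ]; exact hy.c'
  · rw [hβ, hβ']; exact hy.c
  · rw [hZ, toRows₁_mul, det_mul]; exact mul_ne_zero hy.z' f1
  · rw [hZm, toRows₁_mul, det_mul]; exact mul_ne_zero hy.z f2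
  · rw [tt, hβ, hZ, half_mul _ f1, half_rel' hrel hy.z hy.z']
    funext p
    rcases p with p | p
    · rfl
    · rfl

end HypData

end

end Pool.Agent.Helper97.CG
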